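import Mathlib

/-!
# Module CL.Thick : large sets with differences in a thick set

`T` is symmetric and contains arbitrarily long intervals. Step 1: for every `L` there is `n ≥ 1` with
`[n, n + L] ⊆ T`: take an interval `[a, a + 2 L + 2] ⊆ T`; if `a + L + 1 ≥ 0` use `n = a + L + 2`, otherwise the
numbers of `[a, a + L]` are negative and `n = -(a + L)` works by symmetry. Step 2: induction on `K`. For the
step let `y : Fin K → ℕ` be given, `M` a bound of its values; take `[n, n + L] ⊆ T` with `n ≥ 1`,
`L = 2 M + 2 S + 2 W`; the new last element is the multiple of `W` in `[n + M + S, n + M + S + W)`; its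
differences with the old ones, changed by at most `S`, are in `[n, n + M + 2 S + W]`.
-/

namespace PoolCL

theorem thick_seq (T : ℤ → Prop) (hsymm : ∀ d, T d → T (-d))
    (hT : ∀ L : ℕ, ∃ n : ℤ, ∀ d : ℤ, n ≤ d → d ≤ n + L → T d) (W S : ℕ) (hW : 0 < W) :
    ∀ K : ℕ, ∃ y : Fin K → ℕ, (∀ i, W ∣ y i) ∧
      ∀ i j, i < j → ∀ s : ℤ, |s| ≤ S → 0 < (y j : ℤ) - y i + s ∧ T ((y j : ℤ) - y i + s) := by
  have h1 : ∀ L : ℕ, ∃ n : ℤ, 1 ≤ n ∧ ∀ d : ℤ, n ≤ d → d ≤ n + L → T d := by
    intro L
    obtain ⟨a, ha⟩ := hT (2 * L + 2)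
    push_cast at ha
    by_cases h : 0 ≤ a + L + 1
    · exact ⟨a + L + 2, by linarith, fun d h1 h2 => ha d (by linarith) (by linarith)⟩
    · push Not at h
      refine ⟨-(a + L), by linarith, fun d h1 h2 => ?_⟩
      have := hsymm (-d) (ha (-d) (by linarith) (by linarith))
      rwa [neg_neg] at this
  intro K
  induction K with
  | zero => exact ⟨fun i => 0, fun i => i.elim0, fun i => i.elim0⟩
  | succ K ih =>
    obtain ⟨y, hy1, hy2⟩ := ih
    set M : ℕ := ∑ i, y i with hM
    have hyM : ∀ i, y i ≤ M := fun i => Finset.single_le_sum (f := y) (fun _ _ => Nat.zero_le _)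
      (Finset.mem_univ i)
    obtain ⟨n, hn1, hn⟩ := h1 (2 * M + 2 * S + 2 * W)
    push_cast at hn
    obtain ⟨N, hN⟩ : ∃ N : ℕ, (N : ℤ) = n + M + S :=
      ⟨(n + M + S).toNat, Int.toNat_of_nonneg (by positivity)⟩
    have hq1 : N < W * (N / W + 1) := Nat.lt_mul_div_succ N hW
    have hq2 : W * (N / W + 1) ≤ N + W := by
      rw [Nat.mul_add, mul_one]
      exact Nat.add_le_add_right (Nat.mul_div_le N W) W
    refine ⟨Fin.snoc (α := fun _ => ℕ) y (W * (N / W + 1)), ?_, ?_⟩
    · intro i
      induction i using Fin.lastCases with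
      | last => simp
      | cast i => simpa using hy1 i
    · intro i j hij s hs
      induction j using Fin.lastCases with
      | last =>
        induction i using Fin.lastCases with
        | last => exact absurd hij (lt_irrefl _)
        | cast i =>
          simp only [Fin.snoc_last, Fin.snoc_castSucc]
          have h2 := hyM i
          obtain ⟨h3, h4⟩ := abs_le.1 hs
          have h5 : (N : ℤ) < ((W * (N / W + 1) : ℕ) : ℤ) := by exact_mod_cast hq1
          have h6 : ((W * (N / W + 1) : ℕ) : ℤ) ≤ N + W := by exact_mod_cast hq2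
          have h7 : (y i : ℤ) ≤ M := by exact_mod_cast h2
          have h8 : (0 : ℤ) ≤ y i := Int.natCast_nonneg _
          have h9 : (0 : ℤ) ≤ M := Int.natCast_nonneg _
          have h10 : (0 : ℤ) ≤ W := Int.natCast_nonneg _
          refine ⟨by linarith, hn _ (by linarith) (by linarith)⟩
      | cast j =>
        induction i using Fin.lastCases with
        | last => exact absurd hij (not_lt.2 (Fin.le_last _))
        | cast i =>
          simp only [Fin.snoc_castSucc]
          exact hy2 i j (by simpa using hij) s hs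

end PoolCL
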