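import Mathlib

/-!
# Module CL.Tree : leaves of a tree

The leaves are the `t : Fin n → Fin K`; `t j` is the branch taken at level `j`, level `n - 1` is the top. No two
leaves of `R` which branch at level `j` (their top different coordinate is `j`) have both the colour `j`.
Induction on `n`; `n = 0`: `col t < 0` is impossible, `R = ∅`. Step: the leaves of colour `n` (top level) have
all the same last coordinate, so there are at most `K ^ n`. For each value `a` of the last coordinate the
leaves of `R` with this last coordinate and colour `< n` form, after deleting the last coordinate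
(`Fin.init`, `Fin.snoc`), a set as in the case `n`: at most `n K ^ n / K` of them. Sum over the `K` values.
-/

namespace PoolCL

open Finset

theorem tree (K : ℕ) : ∀ (n : ℕ) (R : Finset (Fin n → Fin K)) (col : (Fin n → Fin K) → ℕ),
    (∀ t ∈ R, col t < n) →
    (∀ s ∈ R, ∀ t ∈ R, ∀ j : Fin n, s j ≠ t j → (∀ i, j < i → s i = t i) →
      ¬ (col s = j ∧ col t = j)) →
    #R * K ≤ n * K ^ n := by
  intro n
  induction n with
  | zero =>
    intro R col h1 _
    have hR : R = ∅ := eq_empty_iff_forall_notMem.2 (fun t ht => absurd (h1 t ht) (Nat.not_lt_zero _))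
    simp [hR]
  | succ n ih =>
    intro R col h1 h2
    -- the leaves of top colour
    have hA : #(R.filter (fun t => col t = n)) ≤ K ^ n := by
      have h3 : #(R.filter (fun t => col t = n)) ≤ #(univ : Finset (Fin n → Fin K)) := by
        refine card_le_card_of_injOn (fun t => Fin.init t) (fun _ _ => mem_univ _) ?_
        intro s hs t ht hst
        have hs' := mem_filter.1 (mem_coe.1 hs)
        have ht' := mem_filter.1 (mem_coe.1 ht)
        by_cases hl : s (Fin.last n) = t (Fin.last n)
        · have e1 : s = Fin.snoc (α := fun _ => Fin K) (Fin.init s) (s (Fin.last n)) :=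
            (Fin.snoc_init_self s).symm
          have e2 : t = Fin.snoc (α := fun _ => Fin K) (Fin.init t) (t (Fin.last n)) :=
            (Fin.snoc_init_self t).symm
          rw [e1, e2, hl]
          congr 1
        · exfalso
          refine h2 s hs'.1 t ht'.1 (Fin.last n) hl ?_ ⟨?_, ?_⟩
          · intro i hi
            exact absurd hi (not_lt.2 (Fin.le_last i))
          · simpa using hs'.2
          · simpa using ht'.2
      simpa using h3
    -- the other leaves
    have hB : ∀ a : Fin K, #(univ.filter (fun u : Fin n → Fin K =>
        (Fin.snoc (α := fun _ => Fin K) u a) ∈ R ∧ col (Fin.snoc (α := fun _ => Fin K) u a) < n)) * K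
          ≤ n * K ^ n := by
      intro a
      refine ih _ (fun u => col (Fin.snoc (α := fun _ => Fin K) u a)) ?_ ?_
      · intro t ht
        exact (mem_filter.1 ht).2.2
      · intro s hs t ht j hj hij hc
        have hs' := (mem_filter.1 hs).2.1
        have ht' := (mem_filter.1 ht).2.1
        refine h2 _ hs' _ ht' j.castSucc ?_ ?_ ⟨?_, ?_⟩
        · simpa using hj
        · intro i hi
          induction i using Fin.lastCases with
          | last => simp
          | cast i =>
            have : j < i := by simpa using hi
            simpa using hij i this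
        · simpa using hc.1
        · simpa using hc.2
    have hC : #(R.filter (fun t => ¬ col t = n)) ≤ ∑ a : Fin K,
        #(univ.filter (fun u : Fin n → Fin K =>
        (Fin.snoc (α := fun _ => Fin K) u a) ∈ R ∧
          col (Fin.snoc (α := fun _ => Fin K) u a) < n)) := by
      refine (card_le_card (t := (univ : Finset (Fin K)).biUnion (fun a =>
        (univ.filter (fun u : Fin n → Fin K =>
        (Fin.snoc (α := fun _ => Fin K) u a) ∈ R ∧
          col (Fin.snoc (α := fun _ => Fin K) u a) < n)).image
          (fun u => Fin.snoc (α := fun _ => Fin K) u a))) ?_).trans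
        (card_biUnion_le.trans (sum_le_sum (fun a _ => card_image_le)))
      intro t ht
      obtain ⟨ht1, ht2⟩ := mem_filter.1 ht
      refine mem_biUnion.2 ⟨t (Fin.last n), mem_univ _, mem_image.2 ⟨Fin.init t, ?_, ?_⟩⟩
      · refine mem_filter.2 ⟨mem_univ _, ?_⟩
        rw [Fin.snoc_init_self]
        have := h1 t ht1
        exact ⟨ht1, by omega⟩
      · exact Fin.snoc_init_self t
    have hD : #R = #(R.filter (fun t => col t = n)) + #(R.filter (fun t => ¬ col t = n)) :=
      (card_filter_add_card_filter_not _).symm
    have hE : (∑ a : Fin K, #(univ.filter (fun u : Fin n → Fin K =>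
        (Fin.snoc (α := fun _ => Fin K) u a) ∈ R ∧
          col (Fin.snoc (α := fun _ => Fin K) u a) < n))) * K ≤ K * (n * K ^ n) := by
      rw [sum_mul]
      refine (sum_le_sum (fun a _ => hB a)).trans ?_
      simp
    calc #R * K = #(R.filter (fun t => col t = n)) * K + #(R.filter (fun t => ¬ col t = n)) * K := by
          rw [hD, add_mul]
      _ ≤ K ^ n * K + K * (n * K ^ n) :=
          Nat.add_le_add (Nat.mul_le_mul_right _ hA) ((Nat.mul_le_mul_right _ hC).trans hE)
      _ = (n + 1) * K ^ (n + 1) := by ring

end PoolCL
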