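import Pool.Agent.Work.MP_70e905_nt.CL.Defs
import Pool.Agent.Work.MP_70e905_nt.CL.Thick
import Pool.Agent.Work.MP_70e905_nt.CL.Tree

/-!
# Module CL.Colour : some colour class has a syndetic difference set

Suppose not. For a colour `i` let `T i d` mean that no two primes `p, q` of colour `i` have `p - q = d`; `T i` is
symmetric and contains arbitrarily long intervals. `K = 5 k + 1`, `N = K ^ k`, `L, D₁` from `ClusterM N (1/100)`,
`W = primorial D₁`, `X₀` for `A₀ = 1`, `C = 1`. `many_hits`: from the measure one gets, summing over the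
clusters, one `z` for which at least `6/25 N` clusters contain a prime.
Recursively for `j : Fin k` take `Y j : Fin K → ℕ` from `thick_seq` for `T j`, this `W` and `S j`, where
`S 0 = W * L` and `S (j+1) = S j + ∑ i, Y j i` (first `choose` a function of `j` and `S`, then define `S` by
recursion on ℕ). For `t : Fin k → Fin K` and `l : Fin L` put `h t l = ∑ j, Y j (t j) + W * l`. If the top
different coordinate of `t, t'` is `j` and `t j > t' j` then `h t l - h t' l' = Y j (t j) - Y j (t' j) + s` with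
`|s| ≤ S j`; so this difference is positive and in `T j`. In particular `h` is injective. Apply the cluster lemma
with `v = 1`, `a = 1`, `b = h` (through a bijection `Fin N ≃ (Fin k → Fin K)`, `finFunctionFinEquiv`), `x` large.
`R` = the leaves `t` with a prime `z + h t l`; choose one and let `col t` be its colour. By `tree`
`#R * K ≤ k K ^ k`, but `#R ≥ 6/25 K ^ k`, and `6/25 (5 k + 1) > k`. (`k ≥ 1`, since `c 0 : Fin k`.)
-/

namespace PoolCL

open Finset Classical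

private theorem Colour_primorial_pos (D : ℕ) : 0 < primorial D := by
  unfold primorial
  exact Finset.prod_pos fun p hp => (mem_filter.1 hp).2.pos


theorem many_hits (N : ℕ) (hN : 1 ≤ N) (HC : ClusterM N (1 / 100)) :
    ∃ L D₁ : ℕ, 0 < L ∧ ∀ W A₀ C : ℕ, 0 < W → primorial D₁ ∣ W → ∃ X₀ : ℕ,
    ∀ (x v : ℕ) (a b : Fin N × Fin L → ℕ), X₀ ≤ x →
      (∀ i, 1 ≤ a i ∧ a i ≤ A₀) → (∀ i, ∀ p : ℕ, p.Prime → p ∣ a i → p ∣ W) →
      (∀ i, b i ≤ C * x) → (∀ i, (a i * v + b i).Coprime W) →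
      (∀ i j, i ≠ j → a i * b j ≠ a j * b i) →
      ∃ z, x < z ∧ z ≤ 2 * x ∧ z ≡ v [MOD W] ∧
        6 / 25 * (N : ℝ) ≤ (#{c : Fin N | ∃ i : Fin L, (a (c, i) * z + b (c, i)).Prime} : ℝ) := by
  obtain ⟨L, D₁, hL, hcl⟩ := HC
  refine ⟨L, D₁, hL, fun W A₀ C hW hD => ?_⟩
  obtain ⟨X₀, hX₀⟩ := hcl W A₀ C hW hD
  refine ⟨X₀, fun x v a b hx h1 h2 h3 h4 h5 => ?_⟩
  obtain ⟨w, hw0, hw1, hw2⟩ := hX₀ x v a b hx h1 h2 h3 h4 h5
  by_contra hcon
  push Not at hcon
  set Z : Finset ℕ := (Ioc x (2 * x)).filter (fun z => z ≡ v [MOD W]) with hZ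
  set F : ℕ → ℝ := fun z =>
    (#{c : Fin N | ∃ i : Fin L, (a (c, i) * z + b (c, i)).Prime} : ℝ) with hF
  have h6 : ∀ z ∈ Z, F z < 6 / 25 * (N : ℝ) := by
    intro z hz
    obtain ⟨hz1, hz2⟩ := mem_filter.1 hz
    obtain ⟨hz3, hz4⟩ := mem_Ioc.1 hz1
    exact hcon z hz3 hz4 hz2
  have h7 : 6 / 25 * (N : ℝ) ≤ ∑ z ∈ Z, w z * F z := by
    have e1 : ∑ z ∈ Z, w z * F z = ∑ c : Fin N, ∑ z ∈ (Ioc x (2 * x)).filter (fun z => z ≡ v [MOD W] ∧
        ∃ i : Fin L, (a (c, i) * z + b (c, i)).Prime), w z := by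
      have e2 : ∀ c : Fin N, ∑ z ∈ (Ioc x (2 * x)).filter (fun z => z ≡ v [MOD W] ∧
        ∃ i : Fin L, (a (c, i) * z + b (c, i)).Prime), w z =
          ∑ z ∈ Z, if (∃ i : Fin L, (a (c, i) * z + b (c, i)).Prime) then w z else 0 := by
        intro c
        rw [← sum_filter, hZ, filter_filter]
      simp only [e2]
      rw [sum_comm]
      refine sum_congr rfl (fun z _ => ?_)
      rw [← sum_filter, sum_const, nsmul_eq_mul, mul_comm]
    rw [e1]
    have e3 : ∑ c : Fin N, (1 / 4 - 1 / 100 : ℝ) ≤ ∑ c : Fin N, ∑ z ∈ (Ioc x (2 * x)).filter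
        (fun z => z ≡ v [MOD W] ∧ ∃ i : Fin L, (a (c, i) * z + b (c, i)).Prime), w z :=
      sum_le_sum (fun c _ => hw2 c)
    rw [sum_const, card_univ, Fintype.card_fin, nsmul_eq_mul] at e3
    linarith
  obtain ⟨z₀, hz₀, hz₁⟩ : ∃ z ∈ Z, 0 < w z := by
    by_contra h
    push Not at h
    have : ∑ z ∈ Z, w z ≤ 0 := sum_nonpos h
    linarith
  have h8 : ∑ z ∈ Z, w z * F z < ∑ z ∈ Z, w z * (6 / 25 * (N : ℝ)) :=
    sum_lt_sum (fun z hz => mul_le_mul_of_nonneg_left (h6 z hz).le (hw0 z))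
      ⟨z₀, hz₀, mul_lt_mul_of_pos_left (h6 z₀ hz₀) hz₁⟩
  rw [← sum_mul, hw1, one_mul] at h8
  linarith

theorem colour (HC : ∀ (N : ℕ) (η : ℝ), 1 ≤ N → 0 < η → ClusterM N η) :
    ∀ k : ℕ, ∀ c : ℕ → Fin k, ∃ i : Fin k, ∃ L : ℕ, ∀ n : ℤ,
      ∃ p q : ℕ, p.Prime ∧ q.Prime ∧ c p = i ∧ c q = i ∧
        n ≤ (p : ℤ) - (q : ℤ) ∧ (p : ℤ) - (q : ℤ) ≤ n + (L : ℤ) := by
  intro k c
  by_contra hcon
  push Not at hcon
  set K : ℕ := 5 * k + 1 with hK
  set T : ℕ → ℤ → Prop := fun j d => ∀ p q : ℕ, p.Prime → q.Prime → ((c p : Fin k) : ℕ) = j →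
    ((c q : Fin k) : ℕ) = j → (p : ℤ) - q ≠ d with hT
  have hTs : ∀ j d, T j d → T j (-d) := by
    intro j d h p q hp hq h1 h2 h3
    exact h q p hq hp h2 h1 (by linarith)
  have hTl : ∀ j, ∀ L : ℕ, ∃ n : ℤ, ∀ d : ℤ, n ≤ d → d ≤ n + L → T j d := by
    intro j L
    by_cases hj : j < k
    · obtain ⟨n, hn⟩ := hcon ⟨j, hj⟩ L
      refine ⟨n, fun d h1 h2 p q hp hq hcp hcq hd => ?_⟩
      have := hn p q hp hq (Fin.ext hcp) (Fin.ext hcq) (by rw [hd]; exact h1)
      rw [hd] at this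
      linarith
    · exact ⟨0, fun d _ _ p q _ _ hcp _ _ => absurd (c p).isLt (by omega)⟩
  obtain ⟨L, D₁, hL, hm⟩ := many_hits (K ^ k) (Nat.one_le_pow _ _ (by omega))
    (HC _ _ (Nat.one_le_pow _ _ (by omega)) (by norm_num))
  obtain ⟨W, hWd⟩ : ∃ W, W = primorial D₁ := ⟨_, rfl⟩
  have hW : 0 < W := by
    rw [hWd]
    exact Colour_primorial_pos _
  obtain ⟨X₀, hX₀⟩ := hm W 1 1 hW (by rw [hWd])
  have hY : ∀ (j S : ℕ), ∃ y : Fin K → ℕ, (∀ i, W ∣ y i) ∧ ∀ i i', i < i' → ∀ s : ℤ, |s| ≤ S →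
      0 < (y i' : ℤ) - y i + s ∧ T j ((y i' : ℤ) - y i + s) :=
    fun j S => thick_seq (T j) (hTs j) (hTl j) W S hW K
  choose Y hYW hYT using hY
  obtain ⟨S, hS0, hSs⟩ : ∃ S : ℕ → ℕ, S 0 = W * L ∧ ∀ n, S (n + 1) = S n + ∑ i, Y n (S n) i :=
    ⟨fun n => Nat.rec (W * L) (fun n s => s + ∑ i, Y n s i) n, rfl, fun n => rfl⟩
  have hSsum : ∀ n, S n = W * L + ∑ i ∈ range n, ∑ a, Y i (S i) a := by
    intro n
    induction n with
    | zero => simp [hS0]
    | succ n ih => rw [hSs, sum_range_succ, ← add_assoc, ← ih]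
  set y : ℕ → Fin K → ℕ := fun j => Y j (S j) with hy
  set h : (Fin k → Fin K) → Fin L → ℕ := fun t l => ∑ j : Fin k, y j (t j) + W * l with hh
  have hyle : ∀ j a, y j a ≤ ∑ a, y j a := fun j a =>
    single_le_sum (f := y j) (fun _ _ => Nat.zero_le _) (mem_univ a)
  have hkey : ∀ (t t' : Fin k → Fin K) (l l' : Fin L) (j : Fin k), t' j < t j →
      (∀ i, j < i → t i = t' i) →
      0 < (h t l : ℤ) - h t' l' ∧ T j ((h t l : ℤ) - h t' l') := by
    intro t t' l l' j hlt hij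
    have e1 : ∀ (u : Fin k → Fin K) (m : Fin L), (h u m : ℤ) =
        y j (u j) + ∑ i ∈ univ.erase j, (y i (u i) : ℤ) + W * m := by
      intro u m
      simp only [hh]
      push_cast
      rw [← add_sum_erase univ (fun i : Fin k => (y i (u i) : ℤ)) (mem_univ j)]
    have e2 : |∑ i ∈ univ.erase j, ((y i (t i) : ℤ) - y i (t' i))| ≤
        ∑ i ∈ range j, ∑ a, (y i a : ℤ) := by
      refine (abs_sum_le_sum_abs _ _).trans ?_
      have e3 : ∀ i ∈ univ.erase j, |(y i (t i) : ℤ) - y i (t' i)| ≤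
          if i < j then ∑ a, (y i a : ℤ) else 0 := by
        intro i hi
        rcases lt_or_ge i j with hlt' | hge
        · rw [if_pos hlt']
          have h1 : (y i (t i) : ℤ) ≤ ∑ a, (y i a : ℤ) := by exact_mod_cast hyle i (t i)
          have h2 : (y i (t' i) : ℤ) ≤ ∑ a, (y i a : ℤ) := by exact_mod_cast hyle i (t' i)
          have h3 : (0 : ℤ) ≤ (y i (t i) : ℤ) := Int.natCast_nonneg _
          have h4 : (0 : ℤ) ≤ (y i (t' i) : ℤ) := Int.natCast_nonneg _
          exact abs_le.2 ⟨by linarith, by linarith⟩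
        · have hne : j < i := lt_of_le_of_ne hge (Ne.symm (ne_of_mem_erase hi))
          rw [if_neg (not_lt.2 hge), hij i hne]
          simp
      refine (sum_le_sum e3).trans ?_
      have e4 : ∑ i ∈ univ.erase j, (if i < j then ∑ a, (y i a : ℤ) else 0) ≤
          ∑ i : Fin k, (if i < j then ∑ a, (y i a : ℤ) else 0) := by
        refine sum_le_sum_of_subset_of_nonneg (erase_subset _ _) (fun i _ _ => ?_)
        split_ifs
        · exact sum_nonneg (fun _ _ => Int.natCast_nonneg _)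
        · exact le_rfl
      refine e4.trans ?_
      rw [← sum_filter]
      have e5 : ∑ i ∈ (univ : Finset (Fin k)).filter (fun i => i < j), ∑ a, (y i a : ℤ) =
          ∑ i ∈ ((univ : Finset (Fin k)).filter (fun i => i < j)).image (fun i : Fin k => (i : ℕ)),
            ∑ a, (y i a : ℤ) := by
        rw [sum_image]
        intro i _ i' _ hii
        exact Fin.ext hii
      rw [e5]
      refine sum_le_sum_of_subset_of_nonneg ?_
        (fun i _ _ => sum_nonneg (fun _ _ => Int.natCast_nonneg _))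
      intro i hi
      obtain ⟨i', hi', rfl⟩ := mem_image.1 hi
      exact mem_range.2 (mem_filter.1 hi').2
    have e6 : |(W : ℤ) * l - W * l'| ≤ W * L := by
      have h1 : W * (l : ℕ) ≤ W * L := Nat.mul_le_mul_left _ l.isLt.le
      have h2 : W * (l' : ℕ) ≤ W * L := Nat.mul_le_mul_left _ l'.isLt.le
      have h3 : (W : ℤ) * ((l : ℕ) : ℤ) ≤ W * L := by exact_mod_cast h1
      have h4 : (W : ℤ) * ((l' : ℕ) : ℤ) ≤ W * L := by exact_mod_cast h2
      have h5 : (0 : ℤ) ≤ (W : ℤ) * ((l : ℕ) : ℤ) := by positivity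
      have h6 : (0 : ℤ) ≤ (W : ℤ) * ((l' : ℕ) : ℤ) := by positivity
      exact abs_le.2 ⟨by linarith, by linarith⟩
    have e7 : |∑ i ∈ univ.erase j, ((y i (t i) : ℤ) - y i (t' i)) + ((W : ℤ) * l - W * l')| ≤
        (S j : ℤ) := by
      refine (abs_add_le _ _).trans ?_
      rw [hSsum]
      push_cast
      linarith
    have e8 := hYT j (S j) (t' j) (t j) hlt _ e7
    have e9 : (h t l : ℤ) - h t' l' = (Y j (S j) (t j) : ℤ) - Y j (S j) (t' j) +
        (∑ i ∈ univ.erase j, ((y i (t i) : ℤ) - y i (t' i)) + ((W : ℤ) * l - W * l')) := by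
      rw [e1 t l, e1 t' l', sum_sub_distrib]
      simp only [hy]
      ring
    rw [e9]
    exact e8
  have htop : ∀ t t' : Fin k → Fin K, t ≠ t' → ∃ j, t j ≠ t' j ∧ ∀ i, j < i → t i = t' i := by
    intro t t' hne
    have h1 : (univ.filter (fun j => t j ≠ t' j)).Nonempty := by
      by_contra h2
      rw [not_nonempty_iff_eq_empty, filter_eq_empty_iff] at h2
      exact hne (funext (fun j => not_not.1 (h2 (mem_univ j))))
    refine ⟨(univ.filter (fun j => t j ≠ t' j)).max' h1,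
      (mem_filter.1 (max'_mem _ h1)).2, fun i hi => ?_⟩
    by_contra h2
    exact absurd (le_max' _ i (mem_filter.2 ⟨mem_univ _, h2⟩)) (not_le.2 hi)
  set e : Fin (K ^ k) ≃ (Fin k → Fin K) := finFunctionFinEquiv.symm with he
  set b : Fin (K ^ k) × Fin L → ℕ := fun i => h (e i.1) i.2 with hb
  obtain ⟨z, hz1, hz2, _, hz3⟩ := hX₀ (X₀ + ∑ i, b i) 1 (fun _ => 1) b (Nat.le_add_right _ _)
    (fun _ => ⟨le_rfl, le_rfl⟩)
    (fun _ p hp hd => absurd (Nat.dvd_one.1 hd) hp.one_lt.ne')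
    (fun i => by
      rw [one_mul]
      exact (single_le_sum (f := b) (fun _ _ => Nat.zero_le _) (mem_univ i)).trans
        (Nat.le_add_left _ _))
    (fun i => by
      have h1 : W ∣ b i := dvd_add (dvd_sum (fun j _ => hYW j (S j) _)) (dvd_mul_right _ _)
      obtain ⟨q, hq⟩ := h1
      simp only [one_mul, mul_one]
      rw [hq]
      simp)
    (fun i j hij hEq => by
      have h1 : b j = b i := by simpa using hEq
      by_cases h2 : i.1 = j.1
      · have h3 : i.2 ≠ j.2 := fun h3 => hij (Prod.ext h2 h3)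
        have h4 : h (e j.1) j.2 = h (e i.1) i.2 := h1
        rw [← h2] at h4
        simp only [hh] at h4
        have h5 : W * (j.2 : ℕ) = W * (i.2 : ℕ) := Nat.add_left_cancel h4
        exact h3 (Fin.ext (Nat.eq_of_mul_eq_mul_left hW h5)).symm
      · have h3 : e i.1 ≠ e j.1 := fun h3 => h2 (e.injective h3)
        have h4 : (h (e j.1) j.2 : ℤ) = (h (e i.1) i.2 : ℤ) := by exact_mod_cast h1
        obtain ⟨m, hm1, hm2⟩ := htop _ _ h3
        rcases lt_or_gt_of_ne hm1 with h5 | h5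
        · have := (hkey (e j.1) (e i.1) j.2 i.2 m h5 (fun i hi => (hm2 i hi).symm)).1
          linarith
        · have := (hkey (e i.1) (e j.1) i.2 j.2 m h5 hm2).1
          linarith)
  have hcol : ∀ t : Fin k → Fin K, ∃ m : ℕ, (∃ l, (z + h t l).Prime) →
      ∃ l, (z + h t l).Prime ∧ m = (c (z + h t l) : ℕ) := by
    intro t
    by_cases ht : ∃ l, (z + h t l).Prime
    · obtain ⟨l, hl⟩ := ht
      exact ⟨_, fun _ => ⟨l, hl, rfl⟩⟩
    · exact ⟨0, fun h => absurd h ht⟩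
  choose col hcol using hcol
  have htree := tree K k (univ.filter (fun t => ∃ l, (z + h t l).Prime)) col
    (fun t ht => by
      obtain ⟨l, _, hl2⟩ := hcol t (mem_filter.1 ht).2
      rw [hl2]
      exact (c _).isLt)
    (by
      rintro s hs t ht j hj hij ⟨hcs, hct⟩
      obtain ⟨l, hl1, hl2⟩ := hcol s (mem_filter.1 hs).2
      obtain ⟨l', hl3, hl4⟩ := hcol t (mem_filter.1 ht).2
      rcases lt_or_gt_of_ne hj with h5 | h5
      · refine (hkey t s l' l j h5 (fun i hi => (hij i hi).symm)).2 _ _ hl3 hl1 (hl4.symm.trans hct)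
          (hl2.symm.trans hcs) ?_
        push_cast
        ring
      · refine (hkey s t l l' j h5 hij).2 _ _ hl1 hl3 (hl2.symm.trans hcs)
          (hl4.symm.trans hct) ?_
        push_cast
        ring)
  have hR : 6 / 25 * ((K ^ k : ℕ) : ℝ) ≤
      (#(univ.filter (fun t => ∃ l, (z + h t l).Prime)) : ℝ) := by
    refine hz3.trans ?_
    have h1 : #{c : Fin (K ^ k) | ∃ i : Fin L, (1 * z + b (c, i)).Prime} ≤
        #(univ.filter (fun t => ∃ l, (z + h t l).Prime)) := by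
      refine card_le_card_of_injOn e ?_ e.injective.injOn
      intro m hm
      have h2 := (mem_filter.1 (mem_coe.1 hm)).2
      refine mem_coe.2 (mem_filter.2 ⟨mem_univ _, ?_⟩)
      simpa [hb] using h2
    exact_mod_cast h1
  have h1 : ((#(univ.filter (fun t => ∃ l, (z + h t l).Prime)) : ℕ) : ℝ) * (5 * k + 1) ≤
      k * ((K ^ k : ℕ) : ℝ) := by
    have h2 : ((#(univ.filter (fun t => ∃ l, (z + h t l).Prime)) : ℕ) : ℝ) * ((K : ℕ) : ℝ) ≤
        k * ((K ^ k : ℕ) : ℝ) := by exact_mod_cast htree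
    have h3 : ((K : ℕ) : ℝ) = 5 * k + 1 := by
      simp only [hK]
      push_cast
      ring
    rwa [h3] at h2
  have h2 : (0 : ℝ) < ((K ^ k : ℕ) : ℝ) := by
    have : 0 < K ^ k := Nat.pow_pos (by omega)
    exact_mod_cast this
  have h3 : (0 : ℝ) ≤ (k : ℝ) := Nat.cast_nonneg _
  have h4 : 6 / 25 * ((K ^ k : ℕ) : ℝ) * (5 * k + 1) ≤ k * ((K ^ k : ℕ) : ℝ) :=
    (mul_le_mul_of_nonneg_right hR (by positivity)).trans h1
  have h5 : 0 ≤ (k : ℝ) * ((K ^ k : ℕ) : ℝ) := by positivity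
  linarith

end PoolCL
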