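import Mathlib

/-!
# Module CL.Gam : counting simultaneously hit tuples

Put `P c = ∑ z ∈ Z with c ∈ R z, w z ≥ p` and `f c z = (p / P c) * [c ∈ R z] ∈ [0, 1]`, so that
`∑ z ∈ Z, w z * f c z = p`. By the convexity of `x ^ r` (`inner_le_nnorm_mul_nnorm` is not needed:
`Real.pow_arith_mean_le_arith_mean_pow` with weights `w`), `(p N) ^ r = (∑ z, w z * ∑ c, f c z) ^ r ≤
∑ z, w z * (∑ c, f c z) ^ r = ∑ t : Fin r → Fin N, ∑ z, w z * ∏ i, f (t i) z` (`Finset.prod_univ_sum` or
`Fintype.sum_pow`). For an injective `t` the inner sum is `0` unless `t ∈ Γ`, and then at most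
`∑ z, w z * f (t 0) z = p`; for a non-injective `t` (at most `r ^ 2 N ^ (r-1)` of them) it is at most `1`.
Divide by `p`.
-/

namespace PoolCL

open Finset

theorem gamma_count (N r : ℕ) (hr : 1 ≤ r) (p : ℝ) (hp : 0 < p) (Z : Finset ℕ)
    (w : ℕ → ℝ) (hw : ∀ z, 0 ≤ w z) (hw1 : ∑ z ∈ Z, w z = 1) (R : ℕ → Finset (Fin N))
    (hR : ∀ c, p ≤ ∑ z ∈ Z.filter (fun z => c ∈ R z), w z) (Γ : Finset (Fin r → Fin N))
    (hΓ : ∀ z ∈ Z, ∀ t : Fin r → Fin N, Function.Injective t → (∀ i, t i ∈ R z) → t ∈ Γ) :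
    p ^ (r - 1) * (N : ℝ) ^ r - (r : ℝ) ^ 2 * (N : ℝ) ^ (r - 1) / p ≤ (#Γ : ℝ) := by
  classical
  set P : Fin N → ℝ := fun c => ∑ z ∈ Z.filter (fun z => c ∈ R z), w z with hP
  have hPp : ∀ c, 0 < P c := fun c => hp.trans_le (hR c)
  set f : Fin N → ℕ → ℝ := fun c z => if c ∈ R z then p / P c else 0 with hf
  have hf0 : ∀ c z, 0 ≤ f c z := by
    intro c z
    simp only [hf]
    split_ifs
    · exact div_nonneg hp.le (hPp c).le
    · exact le_rfl
  have hf1 : ∀ c z, f c z ≤ 1 := by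
    intro c z
    simp only [hf]
    split_ifs
    · exact (div_le_one (hPp c)).2 (hR c)
    · exact zero_le_one
  have hfs : ∀ c, ∑ z ∈ Z, w z * f c z = p := by
    intro c
    have e1 : ∑ z ∈ Z, w z * f c z = ∑ z ∈ Z, if c ∈ R z then w z * (p / P c) else 0 := by
      refine sum_congr rfl (fun z _ => ?_)
      simp only [hf]
      split_ifs <;> simp
    rw [e1, ← sum_filter, ← sum_mul]
    have e2 : ∑ z ∈ Z.filter (fun z => c ∈ R z), w z = P c := rfl
    rw [e2]
    field_simp [(hPp c).ne']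
  have h1 : (p * N) ^ r ≤ ∑ t : Fin r → Fin N, ∑ z ∈ Z, w z * ∏ i, f (t i) z := by
    have e1 : p * N = ∑ z ∈ Z, w z * ∑ c, f c z := by
      simp only [mul_sum]
      rw [sum_comm]
      simp only [hfs]
      simp [mul_comm]
    rw [e1]
    refine (Real.pow_arith_mean_le_arith_mean_pow Z w (fun z => ∑ c, f c z) (fun z _ => hw z) hw1
      (fun z _ => sum_nonneg (fun c _ => hf0 c z)) r).trans (le_of_eq ?_)
    rw [sum_comm]
    refine sum_congr rfl (fun z _ => ?_)
    rw [Fintype.sum_pow, mul_sum]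
  have h2 : ∀ t : Fin r → Fin N, ∑ z ∈ Z, w z * ∏ i, f (t i) z ≤ p := by
    intro t
    rw [← hfs (t ⟨0, hr⟩)]
    refine sum_le_sum (fun z _ => mul_le_mul_of_nonneg_left ?_ (hw z))
    rw [← mul_prod_erase univ (fun i => f (t i) z) (mem_univ (⟨0, hr⟩ : Fin r))]
    exact mul_le_of_le_one_right (hf0 _ _) (prod_le_one (fun i _ => hf0 _ _) (fun i _ => hf1 _ _))
  have h3 : ∀ t : Fin r → Fin N, ∑ z ∈ Z, w z * ∏ i, f (t i) z ≤ 1 := by
    intro t
    rw [← hw1]
    refine sum_le_sum (fun z _ => mul_le_of_le_one_right (hw z)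
      (prod_le_one (fun i _ => hf0 _ _) (fun i _ => hf1 _ _)))
  have h4 : ∀ t : Fin r → Fin N, Function.Injective t → t ∉ Γ →
      ∑ z ∈ Z, w z * ∏ i, f (t i) z = 0 := by
    intro t ht htΓ
    refine sum_eq_zero (fun z hz => ?_)
    have h5 : ∃ i, t i ∉ R z := by
      by_contra h
      push Not at h
      exact htΓ (hΓ z hz t ht h)
    obtain ⟨i, hi⟩ := h5
    rw [prod_eq_zero (mem_univ i), mul_zero]
    simp only [hf, if_neg hi]
  have h5 : ∑ t : Fin r → Fin N, ∑ z ∈ Z, w z * ∏ i, f (t i) z ≤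
      p * #Γ + #(univ.filter (fun t : Fin r → Fin N => ¬ Function.Injective t)) := by
    have h6 : ∀ t : Fin r → Fin N, ∑ z ∈ Z, w z * ∏ i, f (t i) z ≤
        (if t ∈ Γ then p else 0) + (if ¬ Function.Injective t then 1 else 0) := by
      intro t
      by_cases ht : t ∈ Γ
      · rw [if_pos ht]
        have := h2 t
        split_ifs <;> linarith
      · rw [if_neg ht]
        by_cases hi : Function.Injective t
        · rw [h4 t hi ht, if_neg (not_not.2 hi)]
          simp
        · rw [if_pos hi]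
          linarith [h3 t]
    refine (sum_le_sum (fun t _ => h6 t)).trans (le_of_eq ?_)
    rw [sum_add_distrib]
    congr 1
    · rw [← sum_filter]
      simp [mul_comm]
    · rw [← sum_filter]
      simp
  have h6 : #(univ.filter (fun t : Fin r → Fin N => ¬ Function.Injective t)) ≤ r ^ 2 * N ^ (r - 1) := by
    have h7 : (univ.filter (fun t : Fin r → Fin N => ¬ Function.Injective t)) ⊆
        ((univ : Finset (Fin r × Fin r)).filter (fun ij => ij.1 ≠ ij.2)).biUnion (fun ij =>
          univ.filter (fun t : Fin r → Fin N => t ij.1 = t ij.2)) := by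
      intro t ht
      have ht' := (mem_filter.1 ht).2
      simp only [Function.Injective] at ht'
      push Not at ht'
      obtain ⟨i, j, hij, hne⟩ := ht'
      exact mem_biUnion.2 ⟨(i, j), by simp [hne], by simp [hij]⟩
    refine (card_le_card h7).trans (card_biUnion_le.trans ?_)
    have h8 : ∀ ij ∈ (univ : Finset (Fin r × Fin r)).filter (fun ij => ij.1 ≠ ij.2),
        #(univ.filter (fun t : Fin r → Fin N => t ij.1 = t ij.2)) ≤ N ^ (r - 1) := by
      rintro ⟨i, j⟩ hij
      have hne : i ≠ j := (mem_filter.1 hij).2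
      have h9 : #(univ.filter (fun t : Fin r → Fin N => t i = t j)) ≤
          #(univ : Finset ({k : Fin r // k ≠ j} → Fin N)) := by
        refine card_le_card_of_injOn (fun t k => t k) (fun _ _ => mem_univ _) ?_
        intro s hs t ht hst
        have hs' := (mem_filter.1 (mem_coe.1 hs)).2
        have ht' := (mem_filter.1 (mem_coe.1 ht)).2
        have hk : ∀ k, k ≠ j → s k = t k := fun k hk => congrFun hst ⟨k, hk⟩
        funext k
        by_cases hkj : k = j
        · subst hkj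
          rw [← hs', ← ht']
          exact hk i hne
        · exact hk k hkj
      simpa using h9
    refine (sum_le_card_nsmul _ _ _ h8).trans ?_
    rw [smul_eq_mul]
    refine Nat.mul_le_mul_right _ ?_
    refine (card_filter_le _ _).trans ?_
    simp [sq]
  have h7 : (p * N) ^ r ≤ p * #Γ + (r : ℝ) ^ 2 * (N : ℝ) ^ (r - 1) := by
    refine (h1.trans h5).trans ?_
    have : ((#(univ.filter (fun t : Fin r → Fin N => ¬ Function.Injective t)) : ℕ) : ℝ) ≤
      (r : ℝ) ^ 2 * (N : ℝ) ^ (r - 1) := by exact_mod_cast h6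
    linarith
  have h8 : (p * N) ^ r = p * (p ^ (r - 1) * (N : ℝ) ^ r) := by
    rw [mul_pow, ← mul_assoc, ← pow_succ', Nat.sub_add_cancel hr]
  rw [sub_le_iff_le_add, ← mul_le_mul_iff_right₀ hp, ← h8, mul_add, mul_div_cancel₀ _ hp.ne']
  exact h7

end PoolCL
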