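import Pool.Agent.Work.MP_70e905_nt.CL.Defs
import Pool.Agent.Work.MP_70e905_nt.CL.Gam

/-!
# Module CL.Patt : many simultaneously hit `r`-tuples of clusters

Choose `η ≤ 1/8` with `(1/4 - η) ^ (r-1) ≥ (1/4) ^ (r-1) - ε/2` and `N ≥ 1` with
`r ^ 2 / ((1/4 - η) N) ≤ ε/2`. Apply `ClusterM N η` and `gamma_count` with `p = 1/4 - η`,
`Z = (Ioc x (2 x)).filter (z ≡ v mod W)`, `R z = {c | ∃ i, (a (c,i) z + b (c,i)).Prime}` and `Γ` the set on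
the right hand side.
-/

namespace PoolCL

open Finset Classical

theorem patt (HC : ∀ (N : ℕ) (η : ℝ), 1 ≤ N → 0 < η → ClusterM N η) (r : ℕ) (hr : 1 ≤ r) (ε : ℝ)
    (hε : 0 < ε) : ∃ N L D₁ : ℕ, 1 ≤ N ∧ 1 ≤ L ∧
    ∀ W A₀ C : ℕ, 0 < W → primorial D₁ ∣ W → ∃ X₀ : ℕ,
    ∀ (x v : ℕ) (a b : Fin N × Fin L → ℕ), X₀ ≤ x →
      (∀ i, 1 ≤ a i ∧ a i ≤ A₀) → (∀ i, ∀ p : ℕ, p.Prime → p ∣ a i → p ∣ W) →
      (∀ i, b i ≤ C * x) → (∀ i, (a i * v + b i).Coprime W) →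
      (∀ i j, i ≠ j → a i * b j ≠ a j * b i) →
      ((1 / 4) ^ (r - 1) - ε) * (N : ℝ) ^ r ≤
        (#{t : Fin r → Fin N | Function.Injective t ∧ ∃ z, x < z ∧ z ≤ 2 * x ∧ z ≡ v [MOD W] ∧
          ∀ i, ∃ l : Fin L, (a (t i, l) * z + b (t i, l)).Prime} : ℝ) := by
  obtain ⟨η, hη0, hη1, hη2⟩ : ∃ η : ℝ, 0 < η ∧ η ≤ 1 / 8 ∧
      (1 / 4 : ℝ) ^ (r - 1) - ε / 2 ≤ (1 / 4 - η) ^ (r - 1) := by
    refine ⟨min (1 / 8) (ε / (8 * r)), ?_, min_le_left _ _, ?_⟩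
    · have : (0 : ℝ) < r := by exact_mod_cast hr
      exact lt_min (by norm_num) (by positivity)
    · have hr0 : (0 : ℝ) < r := by exact_mod_cast hr
      set η : ℝ := min (1 / 8) (ε / (8 * r)) with hη
      have h1 : η ≤ 1 / 8 := min_le_left _ _
      have h2 : η ≤ ε / (8 * r) := min_le_right _ _
      have h0 : 0 ≤ η := le_min (by norm_num) (by positivity)
      have h3 : 1 / 4 - η = 1 / 4 * (1 + (-4 * η)) := by ring
      have h4 : 1 + ((r - 1 : ℕ) : ℝ) * (-4 * η) ≤ (1 + (-4 * η)) ^ (r - 1) :=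
        one_add_mul_le_pow (by linarith) _
      rw [h3, mul_pow]
      have h5 : (1 / 4 : ℝ) ^ (r - 1) * (1 + ((r - 1 : ℕ) : ℝ) * (-4 * η)) ≤
          (1 / 4 : ℝ) ^ (r - 1) * (1 + (-4 * η)) ^ (r - 1) :=
        mul_le_mul_of_nonneg_left h4 (by positivity)
      refine le_trans ?_ h5
      have h6 : (1 / 4 : ℝ) ^ (r - 1) ≤ 1 := pow_le_one₀ (by norm_num) (by norm_num)
      have h7 : ((r - 1 : ℕ) : ℝ) * (4 * η) ≤ ε / 2 := by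
        have h8 : ((r - 1 : ℕ) : ℝ) ≤ r := by exact_mod_cast Nat.sub_le _ _
        calc ((r - 1 : ℕ) : ℝ) * (4 * η) ≤ r * (4 * (ε / (8 * r))) := by gcongr
          _ = ε / 2 := by field_simp; ring
      have h8 : 0 ≤ ((r - 1 : ℕ) : ℝ) * (4 * η) := by positivity
      have h9 : (0 : ℝ) ≤ (1 / 4 : ℝ) ^ (r - 1) := by positivity
      have h10 : (1 / 4 : ℝ) ^ (r - 1) * (((r - 1 : ℕ) : ℝ) * (4 * η)) ≤ 1 * (ε / 2) :=
        mul_le_mul h6 h7 h8 zero_le_one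
      linarith
  obtain ⟨N, hN⟩ := exists_nat_ge (16 * (r : ℝ) ^ 2 / ε + 1)
  have hNr : (1 : ℝ) ≤ N := by
    refine le_trans ?_ hN
    have : (0 : ℝ) ≤ 16 * (r : ℝ) ^ 2 / ε := by positivity
    linarith
  have hN1 : 1 ≤ N := by exact_mod_cast hNr
  obtain ⟨L, D₁, hL, hcl⟩ := HC N η hN1 hη0
  refine ⟨N, L, D₁, hN1, hL, ?_⟩
  intro W A₀ C hW hD
  obtain ⟨X₀, hX₀⟩ := hcl W A₀ C hW hD
  refine ⟨X₀, ?_⟩
  intro x v a b hx h1 h2 h3 h4 h5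
  obtain ⟨w, hw0, hw1, hw2⟩ := hX₀ x v a b hx h1 h2 h3 h4 h5
  have hp : (0 : ℝ) < 1 / 4 - η := by linarith
  have key := gamma_count N r hr (1 / 4 - η) hp ((Ioc x (2 * x)).filter (fun z => z ≡ v [MOD W]))
    w hw0 hw1 (fun z => univ.filter (fun c => ∃ i : Fin L, (a (c, i) * z + b (c, i)).Prime))
    (fun c => (hw2 c).trans (le_of_eq (sum_congr (by
      ext z
      simp only [mem_filter, mem_univ, true_and, and_assoc]) (fun _ _ => rfl))))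
    (univ.filter (fun t : Fin r → Fin N => Function.Injective t ∧ ∃ z, x < z ∧ z ≤ 2 * x ∧
      z ≡ v [MOD W] ∧ ∀ i, ∃ l : Fin L, (a (t i, l) * z + b (t i, l)).Prime))
    (by
      intro z hz t ht hti
      obtain ⟨hz1, hz2⟩ := mem_filter.1 hz
      obtain ⟨hz3, hz4⟩ := mem_Ioc.1 hz1
      exact mem_filter.2 ⟨mem_univ _, ht, z, hz3, hz4, hz2, fun i => (mem_filter.1 (hti i)).2⟩)
  refine le_trans ?_ key
  have hNp : (0 : ℝ) ≤ (N : ℝ) ^ (r - 1) := by positivity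
  have e1 : (r : ℝ) ^ 2 * (N : ℝ) ^ (r - 1) / (1 / 4 - η) ≤ ε / 2 * (N : ℝ) ^ r := by
    rw [div_le_iff₀ hp]
    have e2 : 16 * (r : ℝ) ^ 2 ≤ ε * N := by
      have e3 : 16 * (r : ℝ) ^ 2 / ε ≤ N := by linarith
      rw [div_le_iff₀ hε] at e3
      linarith
    have e4 : (N : ℝ) ^ r = N * (N : ℝ) ^ (r - 1) := by
      rw [← pow_succ', Nat.sub_add_cancel hr]
    rw [e4]
    calc (r : ℝ) ^ 2 * (N : ℝ) ^ (r - 1) ≤ (ε * N / 16) * (N : ℝ) ^ (r - 1) :=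
          mul_le_mul_of_nonneg_right (by linarith) hNp
      _ = (ε / 2 * (N * (N : ℝ) ^ (r - 1))) * (1 / 8) := by ring
      _ ≤ (ε / 2 * (N * (N : ℝ) ^ (r - 1))) * (1 / 4 - η) :=
          mul_le_mul_of_nonneg_left (by linarith) (by positivity)
  have e5 : ((1 / 4 : ℝ) ^ (r - 1) - ε / 2) * (N : ℝ) ^ r ≤ (1 / 4 - η) ^ (r - 1) * (N : ℝ) ^ r :=
    mul_le_mul_of_nonneg_right hη2 (by positivity)
  linarith

end PoolCL
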