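import Pool.Agent.Work.MP_70e905_nt.Cmb.Box
import Pool.Agent.Work.MP_70e905_nt.Cmb.Blow

/-!
# Module CL.BlowR : from patterns of blown up systems to density of `r`-tuples

Suppose `#G < (γ - ε) n ^ r` (so `0 < γ - ε`, `n ≥ 1`). For `s : Fin N → Fin n` put
`Γ s = {t : Fin r → Fin N injective | s ∘ t ∈ G}`. For an injective `t` the number of `s` with `s ∘ t ∈ G` is
`#G * n ^ (N - r)` (as in `PoolCmb.card_restrict`), so `∑ s, #(Γ s) ≤ (γ - ε) N ^ r n ^ N`; by
`PoolCmb.many_good` at least `(ε/2) n ^ N` of the `s` have `#(Γ s) ≤ (γ - ε/2) N ^ r`. The number of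
non-injective `s` is at most `N ^ 2 n ^ (N - 1) ≤ (ε/4) n ^ N` for `n ≥ n₀`. So for some set `Γ₀` the set
`{s injective, Γ s = Γ₀}` has at least `(ε/4) / 2 ^ (N ^ r) * n ^ N` elements, `#Γ₀ ≤ (γ - ε/2) N ^ r`
(`N ≥ 1`; for `r > N` there are no injective `t`). `PoolCmb.box m N c` gives `A : Fin N → Fin m → Fin n`, each
`A k` injective, all transversals in this set; elements of different `A k`, `A l` are different since they
lie on a common transversal (`m ≥ 1`), so `A` is injective on pairs. If `t` injective and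
`(A (t i) (l i))_i ∈ G` then extend `l` to a transversal: `t ∈ Γ₀`. Hence `γ N ^ r ≤ #Γ₀`, a
contradiction. (`classical` instances: the statement uses `Classical`.)
-/

namespace PoolCL

open Finset Classical

private theorem BlowR_noninj (N r : ℕ) :
    #(univ.filter (fun t : Fin r → Fin N => ¬ Function.Injective t)) ≤ r ^ 2 * N ^ (r - 1) := by
  have h7 : (univ.filter (fun t : Fin r → Fin N => ¬ Function.Injective t)) ⊆
      ((univ : Finset (Fin r × Fin r)).filter (fun ij => ij.1 ≠ ij.2)).biUnion (fun ij =>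
        univ.filter (fun t : Fin r → Fin N => t ij.1 = t ij.2)) := by
    intro t ht
    have ht' := (mem_filter.1 ht).2
    simp only [Function.Injective] at ht'
    push Not at ht'
    obtain ⟨i, j, hij, hne⟩ := ht'
    exact mem_biUnion.2 ⟨(i, j), by simp [hne], by simp [hij]⟩
  refine (card_le_card h7).trans (card_biUnion_le.trans ?_)
  have h8 : ∀ ij ∈ (univ : Finset (Fin r × Fin r)).filter (fun ij => ij.1 ≠ ij.2),
      #(univ.filter (fun t : Fin r → Fin N => t ij.1 = t ij.2)) ≤ N ^ (r - 1) := by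
    rintro ⟨i, j⟩ hij
    have hne : i ≠ j := (mem_filter.1 hij).2
    have h9 : #(univ.filter (fun t : Fin r → Fin N => t i = t j)) ≤
        #(univ : Finset ({k : Fin r // k ≠ j} → Fin N)) := by
      refine card_le_card_of_injOn (fun t k => t k) (fun _ _ => mem_univ _) ?_
      intro s hs t ht hst
      have hs' := (mem_filter.1 (mem_coe.1 hs)).2
      have ht' := (mem_filter.1 (mem_coe.1 ht)).2
      have hk : ∀ k, k ≠ j → s k = t k := fun k hk => congrFun hst ⟨k, hk⟩
      funext k
      by_cases hkj : k = j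
      · subst hkj
        rw [← hs', ← ht']
        exact hk i hne
      · exact hk k hkj
    simpa using h9
  refine (sum_le_card_nsmul _ _ _ h8).trans ?_
  rw [smul_eq_mul]
  refine Nat.mul_le_mul_right _ ?_
  refine (card_filter_le _ _).trans ?_
  simp [sq]


theorem blowr (r N m : ℕ) (hN : 1 ≤ N) (hm : 1 ≤ m) (γ ε : ℝ) (hγ : γ ≤ 1) (hε : 0 < ε) :
    ∃ n₀ : ℕ, ∀ n : ℕ, n₀ ≤ n → ∀ G : Finset (Fin r → Fin n),
      (∀ A : Fin N → Fin m → Fin n, Function.Injective (fun s : Fin N × Fin m => A s.1 s.2) →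
        γ * (N : ℝ) ^ r ≤ (#{t : Fin r → Fin N | Function.Injective t ∧
          ∃ l : Fin r → Fin m, (fun i => A (t i) (l i)) ∈ G} : ℝ)) →
      (γ - ε) * (n : ℝ) ^ r ≤ (#G : ℝ) := by
  set P : ℕ := #(univ : Finset (Finset (Fin r → Fin N))) with hP
  have hPp : 0 < P := card_pos.2 ⟨∅, mem_univ _⟩
  have hPr : (0 : ℝ) < P := by exact_mod_cast hPp
  obtain ⟨n₁, hn₁⟩ := PoolCmb.box m N (ε / 4 / P) (by positivity)
  obtain ⟨n₂, hn₂⟩ := exists_nat_ge (4 * (N : ℝ) ^ 2 / ε)
  refine ⟨max 1 (max n₁ n₂), fun n hn G hG => ?_⟩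
  have hn1 : 1 ≤ n := le_trans (le_max_left _ _) hn
  have hnn₁ : n₁ ≤ n := le_trans (le_trans (le_max_left _ _) (le_max_right _ _)) hn
  have hnn₂ : n₂ ≤ n := le_trans (le_trans (le_max_right _ _) (le_max_right _ _)) hn
  have hnr : (0 : ℝ) < n := by exact_mod_cast hn1
  have hNr : (0 : ℝ) < N := by exact_mod_cast hN
  by_contra hlt
  push Not at hlt
  set Γ : (Fin N → Fin n) → Finset (Fin r → Fin N) := fun s =>
    univ.filter (fun t => Function.Injective t ∧ (fun i => s (t i)) ∈ G) with hΓ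
  -- the average of `#(Γ s)`
  have hsum : (∑ s : Fin N → Fin n, ((#(Γ s) : ℕ) : ℝ)) ≤
      (γ - ε) * (N : ℝ) ^ r * (Fintype.card (Fin N → Fin n) : ℝ) := by
    have h1 : ∑ s : Fin N → Fin n, #(Γ s) =
        ∑ t ∈ (univ : Finset (Fin r → Fin N)).filter (fun t => Function.Injective t),
          #((univ : Finset (Fin N → Fin n)).filter (fun s => (fun i => s (t i)) ∈ G)) := by
      simp only [hΓ, ← filter_filter, card_filter (fun t => _) (Finset.filter _ _)]
      rw [sum_comm]
      simp only [card_filter]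
    have h2 : ∀ t ∈ (univ : Finset (Fin r → Fin N)).filter (fun t => Function.Injective t),
        ((#((univ : Finset (Fin N → Fin n)).filter (fun s => (fun i => s (t i)) ∈ G)) : ℕ) : ℝ) ≤
          (γ - ε) * (n : ℝ) ^ N := by
      intro t ht
      have hinj := (mem_filter.1 ht).2
      have h3 := PoolCmb.card_restrict (n := n) t hinj G
      rw [Fintype.card_fin] at h3
      have h4 : r ≤ N := by
        have := Fintype.card_le_of_injective t hinj
        simpa using this
      have h5 : ((#((univ : Finset (Fin N → Fin n)).filter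
          (fun s => (fun i => s (t i)) ∈ G)) : ℕ) : ℝ) ≤ (#G : ℝ) * (n : ℝ) ^ (N - r) := by
        exact_mod_cast h3
      refine h5.trans ((mul_le_mul_of_nonneg_right hlt.le (by positivity)).trans (le_of_eq ?_))
      rw [mul_assoc, ← pow_add, Nat.add_sub_cancel' h4]
    have h3 : 0 ≤ (γ - ε) * (n : ℝ) ^ N := by
      have h4 : 0 < (γ - ε) * (n : ℝ) ^ r := lt_of_le_of_lt (Nat.cast_nonneg _) hlt
      have h5 : 0 < γ - ε := by
        by_contra h6
        push Not at h6
        have : (γ - ε) * (n : ℝ) ^ r ≤ 0 := mul_nonpos_of_nonpos_of_nonneg h6 (by positivity)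
        linarith
      positivity
    have h4 : (∑ s : Fin N → Fin n, ((#(Γ s) : ℕ) : ℝ)) =
        ∑ t ∈ (univ : Finset (Fin r → Fin N)).filter (fun t => Function.Injective t),
          ((#((univ : Finset (Fin N → Fin n)).filter (fun s => (fun i => s (t i)) ∈ G)) : ℕ) : ℝ) := by
      exact_mod_cast h1
    rw [h4]
    refine (sum_le_sum h2).trans ?_
    rw [sum_const, nsmul_eq_mul]
    have h5 : ((#((univ : Finset (Fin r → Fin N)).filter (fun t => Function.Injective t)) : ℕ) : ℝ) ≤
        (N : ℝ) ^ r := by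
      have : #((univ : Finset (Fin r → Fin N)).filter (fun t => Function.Injective t)) ≤ N ^ r := by
        refine (card_filter_le _ _).trans ?_
        simp
      exact_mod_cast this
    refine (mul_le_mul_of_nonneg_right h5 h3).trans (le_of_eq ?_)
    rw [Fintype.card_fun, Fintype.card_fin, Fintype.card_fin, Nat.cast_pow]
    ring
  have hgood := PoolCmb.many_good (fun s : Fin N → Fin n => #(Γ s)) γ ε ((N : ℝ) ^ r) hγ hε
    (by positivity) hsum
  rw [Fintype.card_fun, Fintype.card_fin, Fintype.card_fin, Nat.cast_pow] at hgood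
  set T : Finset (Fin N → Fin n) := univ.filter
    (fun s => ((#(Γ s) : ℕ) : ℝ) ≤ (γ - ε / 2) * (N : ℝ) ^ r) with hT
  -- the non-injective ones
  have hnon : ((#(univ.filter (fun s : Fin N → Fin n => ¬ Function.Injective s)) : ℕ) : ℝ) ≤
      ε / 4 * (n : ℝ) ^ N := by
    have h1 := BlowR_noninj n N
    have h2 : ((#(univ.filter (fun s : Fin N → Fin n => ¬ Function.Injective s)) : ℕ) : ℝ) ≤
        (N : ℝ) ^ 2 * (n : ℝ) ^ (N - 1) := by exact_mod_cast h1
    refine h2.trans ?_
    have h3 : (n : ℝ) ^ N = n * (n : ℝ) ^ (N - 1) := by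
      rw [← pow_succ', Nat.sub_add_cancel hN]
    rw [h3]
    have h4 : 4 * (N : ℝ) ^ 2 / ε ≤ n := hn₂.trans (by exact_mod_cast hnn₂)
    rw [div_le_iff₀ hε] at h4
    calc (N : ℝ) ^ 2 * (n : ℝ) ^ (N - 1) ≤ (n * ε / 4) * (n : ℝ) ^ (N - 1) :=
          mul_le_mul_of_nonneg_right (by linarith) (by positivity)
      _ = ε / 4 * (n * (n : ℝ) ^ (N - 1)) := by ring
  have hT2 : ε / 4 * (n : ℝ) ^ N ≤ ((#(T.filter (fun s => Function.Injective s)) : ℕ) : ℝ) := by
    have h1 : #T = #(T.filter (fun s => Function.Injective s)) +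
        #(T.filter (fun s => ¬ Function.Injective s)) := (card_filter_add_card_filter_not _).symm
    have h2 : #(T.filter (fun s => ¬ Function.Injective s)) ≤
        #(univ.filter (fun s : Fin N → Fin n => ¬ Function.Injective s)) :=
      card_le_card (filter_subset_filter _ (subset_univ _))
    have h3 : (#T : ℝ) ≤ ((#(T.filter (fun s => Function.Injective s)) : ℕ) : ℝ) +
        ((#(univ.filter (fun s : Fin N → Fin n => ¬ Function.Injective s)) : ℕ) : ℝ) := by
      exact_mod_cast h1.le.trans (Nat.add_le_add_left h2 _)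
    linarith
  obtain ⟨Γ₀, _, hΓ₀⟩ := Finset.exists_le_card_fiber_of_nsmul_le_card_of_maps_to
    (s := T.filter (fun s => Function.Injective s))
    (t := (univ : Finset (Finset (Fin r → Fin N)))) (f := Γ) (b := ε / 4 / P * (n : ℝ) ^ N)
    (fun _ _ => mem_univ _) ⟨∅, mem_univ _⟩ (by
      rw [nsmul_eq_mul, ← hP]
      refine le_trans (le_of_eq ?_) hT2
      field_simp)
  obtain ⟨A, hA1, hA2⟩ := hn₁ n hnn₁ _ hΓ₀
  have hA3 : ∀ s : Fin N → Fin m, Function.Injective (fun k => A k (s k)) ∧
      Γ (fun k => A k (s k)) = Γ₀ ∧ ((#Γ₀ : ℕ) : ℝ) ≤ (γ - ε / 2) * (N : ℝ) ^ r := by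
    intro s
    obtain ⟨h1, h2⟩ := mem_filter.1 (hA2 s)
    obtain ⟨h3, h4⟩ := mem_filter.1 h1
    have h5 := (mem_filter.1 h3).2
    rw [h2] at h5
    exact ⟨h4, h2, h5⟩
  have hinj : Function.Injective (fun s : Fin N × Fin m => A s.1 s.2) := by
    rintro ⟨k, i⟩ ⟨l, j⟩ h
    simp only at h
    by_cases hkl : k = l
    · subst hkl
      rw [hA1 k h]
    · exfalso
      have h1 := (hA3 (fun k' => if k' = k then i else j)).1
      have h2 : (fun k' => A k' (if k' = k then i else j)) k =
          (fun k' => A k' (if k' = k then i else j)) l := by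
        simp only [if_true, if_neg (Ne.symm hkl)]
        exact h
      exact hkl (h1 h2)
  have h1 := hG A hinj
  have h2 : #{t : Fin r → Fin N | Function.Injective t ∧
      ∃ l : Fin r → Fin m, (fun i => A (t i) (l i)) ∈ G} ≤ #Γ₀ := by
    refine card_le_card (fun t ht => ?_)
    obtain ⟨ht1, l, hl⟩ := (mem_filter.1 ht).2
    have h3 := (hA3 (Function.extend t l (fun _ => ⟨0, hm⟩))).2.1
    rw [← h3]
    simp only [hΓ]
    refine mem_filter.2 ⟨mem_univ _, ht1, ?_⟩
    simpa only [ht1.extend_apply] using hl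
  have h3 := (hA3 (fun _ => ⟨0, hm⟩)).2.2
  have h4 : (#{t : Fin r → Fin N | Function.Injective t ∧
      ∃ l : Fin r → Fin m, (fun i => A (t i) (l i)) ∈ G} : ℝ) ≤ (#Γ₀ : ℝ) := by exact_mod_cast h2
  have h5 : 0 < ε / 2 * (N : ℝ) ^ r := by positivity
  linarith

end PoolCL
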