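import Pool.Agent.Work.MP_70e905_nt.CL.N5
import Pool.Agent.Work.BV.PIV

/-!
# The cluster lemma with `N` clusters, unconditional
-/

namespace PoolCL

theorem clusterM_all (N : ℕ) (η : ℝ) (hN : 1 ≤ N) (hη : 0 < η) : ClusterM N η :=
  clusterM (fun t ht => BV.ld_all t ht) BV.pnt_all N hN η hη

end PoolCL
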