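import Pool.Agent.Work.MP_70e905_nt.Q4.Clus

/-!
# CL: the uniform cluster lemma with `N` clusters, measure form

`ClusterM N η`: there is `L` such that for every admissible system of `N` clusters of `L` linear forms
there is a probability measure `w` on the `z` in `(x, 2x]`, `z ≡ v` mod `W`, for which EVERY cluster
contains a prime value with probability at least `1/4 - η`.
-/

namespace PoolCL

open Finset

def ClusterM (N : ℕ) (η : ℝ) : Prop :=
  ∃ L D₁ : ℕ, 0 < L ∧ ∀ W A₀ C : ℕ, 0 < W → primorial D₁ ∣ W → ∃ X₀ : ℕ,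
    ∀ (x v : ℕ) (a b : Fin N × Fin L → ℕ), X₀ ≤ x →
      (∀ i, 1 ≤ a i ∧ a i ≤ A₀) → (∀ i, ∀ p : ℕ, p.Prime → p ∣ a i → p ∣ W) →
      (∀ i, b i ≤ C * x) → (∀ i, (a i * v + b i).Coprime W) →
      (∀ i j, i ≠ j → a i * b j ≠ a j * b i) →
      ∃ w : ℕ → ℝ, (∀ z, 0 ≤ w z) ∧
        ∑ z ∈ (Ioc x (2 * x)).filter (fun z => z ≡ v [MOD W]), w z = 1 ∧
        ∀ c : Fin N, 1 / 4 - η ≤
          ∑ z ∈ (Ioc x (2 * x)).filter (fun z => z ≡ v [MOD W] ∧
            ∃ i : Fin L, (a (c, i) * z + b (c, i)).Prime), w z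

end PoolCL
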