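import Mathlib

/-!
# Module CL.N1 : Cauchy-Schwarz for one cluster

Let `n z` be the number of `i ∈ I` with `q z i`. Then `∑ i ∈ I, ∑ z, q z i, w z = ∑ z ∈ dom, w z * n z`, only
the `z` with some `q z i` contribute, and by Cauchy-Schwarz (`Finset.sum_mul_sq_le_sq_mul_sq` with `√(w z)`
and `√(w z) * n z`) its square is at most `(∑ hit z, w z) * ∑ z, w z * (n z) ^ 2`; the last sum is the
bracket on the right (pairs `i = j` and `i ≠ j`). Compare `MT/G1.lean`, theorem `cluster` (same proof with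
all the forms instead of `I`).
-/

namespace PoolCL

open Finset

theorem cs_cluster {K : ℕ} (dom : Finset ℕ) (w : ℕ → ℝ) (hw : ∀ z, 0 ≤ w z) (I : Finset (Fin K))
    (q : ℕ → Fin K → Prop) [∀ z i, Decidable (q z i)] :
    (∑ i ∈ I, ∑ z ∈ dom.filter (fun z => q z i), w z) ^ 2 ≤
      (∑ z ∈ dom.filter (fun z => ∃ i ∈ I, q z i), w z) *
        (∑ i ∈ I, ∑ z ∈ dom.filter (fun z => q z i), w z +
          ∑ i ∈ I, ∑ j ∈ I.filter (fun j => i ≠ j),
            ∑ z ∈ dom.filter (fun z => q z i ∧ q z j), w z) := by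
  classical
  set N : ℕ → ℝ := fun z => ∑ i ∈ I, if q z i then (1 : ℝ) else 0 with hN
  have hN0 : ∀ z, (¬ ∃ i ∈ I, q z i) → N z = 0 := by
    intro z hz
    refine Finset.sum_eq_zero fun i hi => ?_
    rw [if_neg fun h => hz ⟨i, hi, h⟩]
  have h1' : ∑ i ∈ I, ∑ z ∈ dom.filter (fun z => q z i), w z = ∑ z ∈ dom, w z * N z := by
    simp only [Finset.sum_filter]
    rw [Finset.sum_comm]
    refine Finset.sum_congr rfl fun z _ => ?_
    rw [hN]
    simp only [Finset.mul_sum, mul_ite, mul_one, mul_zero]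
  have h2' : ∑ i ∈ I, ∑ z ∈ dom.filter (fun z => q z i), w z +
        ∑ i ∈ I, ∑ j ∈ I.filter (fun j => i ≠ j),
          ∑ z ∈ dom.filter (fun z => q z i ∧ q z j), w z = ∑ z ∈ dom, w z * N z ^ 2 := by
    have e1 : ∑ i ∈ I, ∑ z ∈ dom.filter (fun z => q z i), w z =
        ∑ z ∈ dom, ∑ i ∈ I, if q z i then w z else 0 := by
      simp only [Finset.sum_filter]
      rw [Finset.sum_comm]
    have e2 : ∑ i ∈ I, ∑ j ∈ I.filter (fun j => i ≠ j),
          ∑ z ∈ dom.filter (fun z => q z i ∧ q z j), w z =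
        ∑ z ∈ dom, ∑ i ∈ I, ∑ j ∈ I, if i ≠ j then
          (if q z i ∧ q z j then w z else 0) else 0 := by
      rw [Finset.sum_comm]
      refine Finset.sum_congr rfl fun i _ => ?_
      rw [Finset.sum_filter, Finset.sum_comm]
      refine Finset.sum_congr rfl fun j _ => ?_
      split_ifs with h
      · rw [Finset.sum_filter]
      · simp
    rw [e1, e2, ← Finset.sum_add_distrib]
    refine Finset.sum_congr rfl fun z hz => ?_
    rw [← Finset.sum_add_distrib, hN, sq, Finset.sum_mul_sum, Finset.mul_sum]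
    refine Finset.sum_congr rfl fun i hi => ?_
    have e3 : (if q z i then w z else 0) = ∑ j ∈ I, if i = j then (if q z i then w z else 0) else 0 := by
      rw [Finset.sum_ite_eq, if_pos hi]
    rw [e3, ← Finset.sum_add_distrib, Finset.mul_sum]
    refine Finset.sum_congr rfl fun j _ => ?_
    by_cases hij : i = j
    · subst hij
      by_cases hi : q z i <;> simp [hi]
    · by_cases hi : q z i
      · by_cases hj : q z j
        · simp [hi, hj, hij]
        · simp [hj, hij]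
      · simp [hi, hij]
  have h1 : ∑ i ∈ I, ∑ z ∈ dom.filter (fun z => q z i), w z =
      ∑ z ∈ dom.filter (fun z => ∃ i ∈ I, q z i), w z * N z := by
    rw [h1', Finset.sum_filter]
    refine Finset.sum_congr rfl fun z _ => ?_
    split_ifs with h
    · rfl
    · rw [hN0 z h, mul_zero]
  have h2 : ∑ i ∈ I, ∑ z ∈ dom.filter (fun z => q z i), w z +
        ∑ i ∈ I, ∑ j ∈ I.filter (fun j => i ≠ j),
          ∑ z ∈ dom.filter (fun z => q z i ∧ q z j), w z =
      ∑ z ∈ dom.filter (fun z => ∃ i ∈ I, q z i), w z * N z ^ 2 := by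
    rw [h2', Finset.sum_filter]
    refine Finset.sum_congr rfl fun z _ => ?_
    split_ifs with h
    · rfl
    · rw [hN0 z h]
      ring
  rw [h2, h1]
  have h3 := Finset.sum_mul_sq_le_sq_mul_sq (dom.filter (fun z => ∃ i ∈ I, q z i))
    (fun z => √(w z)) (fun z => √(w z) * N z)
  have e4 : ∀ z, √(w z) * (√(w z) * N z) = w z * N z := by
    intro z
    rw [← mul_assoc, Real.mul_self_sqrt (hw z)]
  have e5 : ∀ z, √(w z) ^ 2 = w z := fun z => Real.sq_sqrt (hw z)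
  have e6 : ∀ z, (√(w z) * N z) ^ 2 = w z * N z ^ 2 := by
    intro z
    rw [mul_pow, Real.sq_sqrt (hw z)]
  simp only [e4, e5, e6] at h3
  exact h3

theorem num_cluster (m η H V E T1 T2 T3 : ℝ) (hη : 0 < η) (hm : 0 < m) (hT1 : 0 < T1)
    (hT2 : 0 < T2) (hH : 0 ≤ H) (hE0 : 0 ≤ E) (hV : m * T2 ≤ V) (hE : E ≤ m ^ 2 * T3)
    (hC : V ^ 2 ≤ H * (V + E)) (hT : T1 * T3 ≤ (4 + η) * T2 ^ 2) (hA : T1 ≤ η * (m * T2)) :
    (1 / 4 - η) * T1 ≤ H := by
  have hu : 0 < m * T2 := mul_pos hm hT2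
  have hV0 : 0 < V := lt_of_lt_of_le hu hV
  have h1 : T1 * V ≤ η * V ^ 2 := by
    have a1 : T1 * V ≤ η * (m * T2) * V := mul_le_mul_of_nonneg_right hA hV0.le
    have a2 : η * (m * T2) * V ≤ η * V * V :=
      mul_le_mul_of_nonneg_right (mul_le_mul_of_nonneg_left hV hη.le) hV0.le
    calc T1 * V ≤ η * V * V := a1.trans a2
      _ = η * V ^ 2 := by ring
  have h2 : T1 * E ≤ (4 + η) * V ^ 2 := by
    have a1 : T1 * E ≤ T1 * (m ^ 2 * T3) := mul_le_mul_of_nonneg_left hE hT1.le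
    have a2 : m ^ 2 * (T1 * T3) ≤ m ^ 2 * ((4 + η) * T2 ^ 2) :=
      mul_le_mul_of_nonneg_left hT (by positivity)
    have a3 : (m * T2) ^ 2 ≤ V ^ 2 := pow_le_pow_left₀ hu.le hV 2
    have a4 : (4 + η) * (m * T2) ^ 2 ≤ (4 + η) * V ^ 2 :=
      mul_le_mul_of_nonneg_left a3 (by positivity)
    calc T1 * E ≤ T1 * (m ^ 2 * T3) := a1
      _ = m ^ 2 * (T1 * T3) := by ring
      _ ≤ m ^ 2 * ((4 + η) * T2 ^ 2) := a2
      _ = (4 + η) * (m * T2) ^ 2 := by ring
      _ ≤ _ := a4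
  have h3 : T1 * (V + E) ≤ (4 + 2 * η) * V ^ 2 := by
    calc T1 * (V + E) = T1 * V + T1 * E := by ring
      _ ≤ η * V ^ 2 + (4 + η) * V ^ 2 := add_le_add h1 h2
      _ = _ := by ring
  have h4 : T1 * V ^ 2 ≤ H * ((4 + 2 * η) * V ^ 2) := by
    calc T1 * V ^ 2 ≤ T1 * (H * (V + E)) := mul_le_mul_of_nonneg_left hC hT1.le
      _ = H * (T1 * (V + E)) := by ring
      _ ≤ H * ((4 + 2 * η) * V ^ 2) := mul_le_mul_of_nonneg_left h3 hH
  have h5 : T1 ≤ H * (4 + 2 * η) := by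
    have hV2 : 0 < V ^ 2 := by positivity
    refine le_of_mul_le_mul_right ?_ hV2
    calc T1 * V ^ 2 ≤ H * ((4 + 2 * η) * V ^ 2) := h4
      _ = H * (4 + 2 * η) * V ^ 2 := by ring
  rcases le_or_gt (1 / 4 - η) 0 with h6 | h6
  · have : (1 / 4 - η) * T1 ≤ 0 := mul_nonpos_of_nonpos_of_nonneg h6 hT1.le
    linarith
  · have h7 : (1 / 4 - η) * T1 ≤ (1 / 4 - η) * (H * (4 + 2 * η)) :=
      mul_le_mul_of_nonneg_left h5 h6.le
    have h8 : (1 / 4 - η) * (4 + 2 * η) ≤ 1 := by nlinarith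
    have h9 : (1 / 4 - η) * (H * (4 + 2 * η)) = H * ((1 / 4 - η) * (4 + 2 * η)) := by ring
    have h10 : H * ((1 / 4 - η) * (4 + 2 * η)) ≤ H * 1 := mul_le_mul_of_nonneg_left h8 hH
    linarith

end PoolCL
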