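import Mathlib

/-!
# Module CL.N3 : the inequalities between the three main terms, small parameter `e = η / 1000`

Same as `MT/G2.lean` (theorems `ineq_T`, `ineq_6`, with full proofs there) with `e` instead of `1/1000`.
`ineq_T'`: after removing common factors it says
`(g + e) ((1 + e) g + e) (rW' r / k) / (1/4 - 2 e) ≤ (4 + η) (1 - 4 e)^2`, and the left side is at most
`4 (1 + 2 e) (1 + 3 e + e^2) (1 + e) / (1 - 8 e) ≤ 4 + 100 e`, the right side is at least `4 + η - 40 e`.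
`ineq_6'`: `K T2 / T1 ≥ K (1 - 4 e) U1^2 / ((g + e) (1 + e) k lx U2) ≥
K (1 - 4 e) L^2 t₀ / ((1 + 2 e) (1 + e) 8 C₀) = (1 - 4 e) / ((1 + 2 e) (1 + e)) * L e^2 / (64 C₀^2) ≥ N / η`.
-/

namespace PoolCL

theorem ineq_T' (η e : ℝ) (hη : 0 < η) (hη1 : η ≤ 1) (he : e = η / 1000) (K : ℕ) (hK : 2 ≤ K)
    (g rW' r k lx X q2 U1' U2' : ℝ) (hg : 1 ≤ g) (hg' : g ≤ 1 + e)
    (hrW : 0 < rW') (hr : 0 ≤ r) (hk : 0 < k) (hlx : 0 < lx) (hX : 0 < X) (hq2 : 0 ≤ q2)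
    (hU1 : 0 < U1') (hU2 : 0 < U2') (hrk : rW' * r ≤ (1 + e) * k) :
    (g + e) * (X * rW' * lx) * (q2 * r) * U2' ^ K *
        (((1 + e) * g + e) * X * q2 * U1' ^ 4 * U2' ^ (K - 2) /
          (k * ((1 / 4 - 2 * e) * lx))) ≤
      (4 + η) * ((1 - 4 * e) * X * q2 * U1' ^ 2 * U2' ^ (K - 1)) ^ 2 := by
  obtain ⟨n, rfl⟩ : ∃ n, K = n + 2 := ⟨K - 2, by omega⟩
  have e1 : n + 2 - 2 = n := by omega
  have e2 : n + 2 - 1 = n + 1 := by omega
  rw [e1, e2]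
  have he0 : 0 < e := by rw [he]; positivity
  have he1 : e ≤ 1 / 1000 := by rw [he]; linarith
  have hηe : η = 1000 * e := by rw [he]; ring
  have h14 : 0 < 1 / 4 - 2 * e := by linarith
  set M : ℝ := X ^ 2 * q2 ^ 2 * U1' ^ 4 * (U2' ^ (n + 1)) ^ 2 with hM
  have hM0 : 0 ≤ M := by positivity
  have e3 : (g + e) * (X * rW' * lx) * (q2 * r) * U2' ^ (n + 2) *
        (((1 + e) * g + e) * X * q2 * U1' ^ 4 * U2' ^ n /
          (k * ((1 / 4 - 2 * e) * lx))) =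
      (g + e) * ((1 + e) * g + e) * (rW' * r / k) /
        (1 / 4 - 2 * e) * M := by
    rw [hM]
    field_simp
    ring
  have e4 : (4 + η) * ((1 - 4 * e) * X * q2 * U1' ^ 2 * U2' ^ (n + 1)) ^ 2 =
      (4 + η) * (1 - 4 * e) ^ 2 * M := by
    rw [hM]
    ring
  rw [e3, e4]
  refine mul_le_mul_of_nonneg_right ?_ hM0
  have h1 : rW' * r / k ≤ 1 + e := by
    rw [div_le_iff₀ hk]
    exact hrk
  have h0 : 0 ≤ rW' * r / k := by positivity
  have h2a : (1 + e) * g + e ≤ (1 + e) * (1 + e) + e := by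
    have := mul_le_mul_of_nonneg_left hg' (by linarith : (0 : ℝ) ≤ 1 + e)
    linarith
  have h2b : 0 ≤ (1 + e) * g + e := by
    have : 0 ≤ (1 + e) * g := mul_nonneg (by linarith) (by linarith)
    linarith
  have h2 : (g + e) * ((1 + e) * g + e) ≤
      (1 + e + e) * ((1 + e) * (1 + e) + e) :=
    mul_le_mul (by linarith) h2a h2b (by linarith)
  have h3 : (g + e) * ((1 + e) * g + e) * (rW' * r / k) ≤
      (1 + e + e) * ((1 + e) * (1 + e) + e) *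
        (1 + e) :=
    mul_le_mul h2 h1 h0 (by positivity)
  rw [div_le_iff₀ h14]
  refine h3.trans ?_
  rw [hηe]
  have p1 : (1 + e + e) * ((1 + e) * (1 + e) + e) * (1 + e) ≤ 1 + 7 * e := by
    have q1 : e ^ 2 ≤ e / 1000 := by nlinarith
    have q2 : e ^ 3 ≤ e / 1000 := by nlinarith [mul_nonneg he0.le he0.le]
    have q3 : e ^ 4 ≤ e / 1000 := by
      have : e ^ 4 = e ^ 2 * e ^ 2 := by ring
      rw [this]
      have q4 : 0 ≤ e ^ 2 := by positivity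
      nlinarith
    nlinarith
  have p2 : 1 + 7 * e ≤ (4 + 1000 * e) * (1 - 4 * e) ^ 2 * (1 / 4 - 2 * e) := by
    have q1 : (1 - 8 * e) ≤ (1 - 4 * e) ^ 2 := by nlinarith
    have q2 : (1 + 100 * e) ≤ (4 + 1000 * e) * (1 / 4 - 2 * e) := by nlinarith
    have q3 : (1 + 100 * e) * (1 - 8 * e) ≤
        ((4 + 1000 * e) * (1 / 4 - 2 * e)) * (1 - 4 * e) ^ 2 :=
      mul_le_mul q2 q1 (by linarith) (by nlinarith)
    have q4 : 1 + 7 * e ≤ (1 + 100 * e) * (1 - 8 * e) := by nlinarith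
    calc _ ≤ _ := q4
      _ ≤ _ := q3
      _ = _ := by ring
  exact p1.trans p2

theorem ineq_6' (η e : ℝ) (hη : 0 < η) (hη1 : η ≤ 1) (he : e = η / 1000) (N K L : ℕ) (hN : 1 ≤ N)
    (hK : 1 ≤ K) (C₀ t₀ g rW' r k lx X q2 U1' U2' : ℝ) (hC₀ : 1 ≤ C₀)
    (hL : 10 ^ 8 * N * C₀ ^ 2 / η ^ 3 ≤ L) (ht₀ : t₀ = e * e / (8 * K * C₀ * L)) (hg : 1 ≤ g)
    (hg' : g ≤ 1 + e) (hrW : 0 < rW') (hr : 0 ≤ r) (hk : 0 < k) (hlx : 0 < lx) (hX : 0 < X)
    (hq2 : 0 ≤ q2) (hU1 : k * lx * L * t₀ ≤ U1') (hU2 : 0 < U2') (hU2' : U2' ≤ 8 * (C₀ * (k * lx)) * t₀)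
    (hrk : rW' * r ≤ (1 + e) * k) :
    N * ((g + e) * (X * rW' * lx) * (q2 * r) * U2' ^ K) ≤
      η * (K * ((1 - 4 * e) * X * q2 * U1' ^ 2 * U2' ^ (K - 1))) := by
  obtain ⟨n, rfl⟩ : ∃ n, K = n + 1 := ⟨K - 1, by omega⟩
  have e2 : n + 1 - 1 = n := by omega
  rw [e2]
  have he0 : 0 < e := by rw [he]; positivity
  have he1 : e ≤ 1 / 1000 := by rw [he]; linarith
  have hNp : (1 : ℝ) ≤ N := by exact_mod_cast hN
  have hN0 : (0 : ℝ) < N := by linarith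
  have hC0 : 0 < C₀ := by linarith
  have hKp : (0 : ℝ) < ((n + 1 : ℕ) : ℝ) := by positivity
  have hLp : (0 : ℝ) < L := lt_of_lt_of_le (by positivity) hL
  have ht0 : 0 < t₀ := by
    rw [ht₀]
    positivity
  set κ : ℝ := ((n + 1 : ℕ) : ℝ) with hκ
  -- remove the common factor
  have hM0 : 0 ≤ X * q2 * U2' ^ n := by positivity
  have key : N * ((g + e) * lx * (rW' * r) * U2') ≤
      η * (κ * ((1 - 4 * e) * U1' ^ 2)) := by
    have a1 : (g + e) * lx * (rW' * r) * U2' ≤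
        (1 + 2 * e) * lx * ((1 + e) * k) * (8 * (C₀ * (k * lx)) * t₀) := by
      have b1 : (g + e) * lx ≤ (1 + 2 * e) * lx :=
        mul_le_mul_of_nonneg_right (by linarith) hlx.le
      have b2 : (g + e) * lx * (rW' * r) ≤ (1 + 2 * e) * lx * ((1 + e) * k) :=
        mul_le_mul b1 hrk (by positivity) (by positivity)
      exact mul_le_mul b2 hU2' hU2.le (by positivity)
    have a2 : (k * lx * L * t₀) ^ 2 ≤ U1' ^ 2 :=
      pow_le_pow_left₀ (by positivity) hU1 2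
    have a3 : κ * C₀ * L * t₀ = e ^ 2 / 8 := by
      rw [ht₀]
      field_simp
    have a4 : N * ((1 + 2 * e) * lx * ((1 + e) * k) * (8 * (C₀ * (k * lx)) * t₀)) ≤
        η * (κ * ((1 - 4 * e) * (k * lx * L * t₀) ^ 2)) := by
      have c1 : κ * ((1 - 4 * e) * (k * lx * L * t₀) ^ 2) =
          (1 - 4 * e) * (k * lx) ^ 2 * t₀ * (L / C₀) * (κ * C₀ * L * t₀) := by
        field_simp
      rw [c1, a3]
      have c2 : 10 ^ 8 * N * C₀ / η ^ 3 ≤ L / C₀ := by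
        rw [le_div_iff₀ hC0]
        have d1 : 10 ^ 8 * (N : ℝ) * C₀ / η ^ 3 * C₀ = 10 ^ 8 * (N : ℝ) * C₀ ^ 2 / η ^ 3 := by
          field_simp
        rw [d1]
        exact hL
      have c3 : N * ((1 + 2 * e) * lx * ((1 + e) * k) * (8 * (C₀ * (k * lx)) * t₀)) =
          (8 * (1 + 2 * e) * (1 + e)) * (N * C₀) * ((k * lx) ^ 2 * t₀) := by ring
      have c4 : η * ((1 - 4 * e) * (k * lx) ^ 2 * t₀ * (L / C₀) * (e ^ 2 / 8)) =
          (η * e ^ 2 / 8 * (1 - 4 * e)) * (L / C₀) * ((k * lx) ^ 2 * t₀) := by ring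
      rw [c3, c4]
      refine mul_le_mul_of_nonneg_right ?_ (by positivity)
      have h14 : 0 ≤ 1 - 4 * e := by linarith
      have c5 : (η * e ^ 2 / 8 * (1 - 4 * e)) * (10 ^ 8 * N * C₀ / η ^ 3) ≤
          (η * e ^ 2 / 8 * (1 - 4 * e)) * (L / C₀) :=
        mul_le_mul_of_nonneg_left c2 (by positivity)
      refine le_trans ?_ c5
      have c6 : (η * e ^ 2 / 8 * (1 - 4 * e)) * (10 ^ 8 * N * C₀ / η ^ 3) =
          (25 / 2 * (1 - 4 * e)) * (N * C₀) := by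
        rw [he]
        field_simp
        ring
      rw [c6]
      refine mul_le_mul_of_nonneg_right ?_ (by positivity)
      nlinarith
    calc _ ≤ N * ((1 + 2 * e) * lx * ((1 + e) * k) * (8 * (C₀ * (k * lx)) * t₀)) :=
          mul_le_mul_of_nonneg_left a1 hN0.le
      _ ≤ _ := a4
      _ ≤ _ := by
          refine mul_le_mul_of_nonneg_left ?_ hη.le
          refine mul_le_mul_of_nonneg_left ?_ hKp.le
          exact mul_le_mul_of_nonneg_left a2 (by linarith)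
  have e5 : N * ((g + e) * (X * rW' * lx) * (q2 * r) * U2' ^ (n + 1)) =
      N * ((g + e) * lx * (rW' * r) * U2') * (X * q2 * U2' ^ n) := by ring
  have e6 : η * (κ * ((1 - 4 * e) * X * q2 * U1' ^ 2 * U2' ^ n)) =
      η * (κ * ((1 - 4 * e) * U1' ^ 2)) * (X * q2 * U2' ^ n) := by ring
  rw [e5, e6]
  exact mul_le_mul_of_nonneg_right key hM0

end PoolCL
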