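import Pool.Agent.Work.MP_70e905_nt.CL.N4
import Pool.Agent.Work.MP_70e905_nt.CL.Defs

/-!
# Module CL.N5 : `ClusterM`

From `GMcfg` with the bijection `finProdFinEquiv : Fin N × Fin m ≃ Fin (N * m)` (see `MT/Main.lean`,
theorem `GT`, same argument). For `η > 1` use `η = 1`. `c.dom W` is `(Ioc x (2 x)).filter (z % W = v % W)`.
-/

set_option autoImplicit false

namespace PoolCL

open Finset Pool.Agent.Work.MP_70e905_nt.MT

private theorem N5_small (hLD : ∀ t : ℝ, t < 1 / 2 → LD t) (hPNT : PNT) (N : ℕ) (hN : 1 ≤ N)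
    (η : ℝ) (hη : 0 < η) (hη1 : η ≤ 1) : ClusterM N η := by
  obtain ⟨m, D₀, hm, h⟩ := GMcfg hLD hPNT N hN η hη hη1
  refine ⟨m, D₀, hm, fun W A₀ C hW hDW => ?_⟩
  obtain ⟨X₀, hX⟩ := h W A₀ C
  refine ⟨X₀, fun x v a b hx ha haW hb hcop hdif => ?_⟩
  set e : Fin N × Fin m ≃ Fin (N * m) := finProdFinEquiv with he
  have hdiv : ∀ i : Fin (N * m), ((e.symm i).1 : ℕ) = (i : ℕ) / m := fun i => rfl
  obtain ⟨w, hw0, hw1, hw2⟩ := hX ⟨x, v, fun i => a (e.symm i), fun i => b (e.symm i)⟩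
    { hW := hW
      hDW := hDW
      ha := fun i => (ha _).1
      haA := fun i => (ha _).2
      haW := fun i => haW _
      hb := fun i => hb _
      hcop := fun i => hcop _
      hdif := fun i j hij => hdif _ _ (fun h => hij (e.symm.injective h)) } hx
  refine ⟨w, hw0, hw1, fun c => ?_⟩
  refine (hw2 c).trans ?_
  refine sum_le_sum_of_subset_of_nonneg ?_ (fun z _ _ => hw0 z)
  intro z hz
  unfold Cfg.dom at hz
  rw [mem_filter, mem_filter] at hz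
  obtain ⟨⟨h1, h2⟩, i, hi, h3⟩ := hz
  refine mem_filter.2 ⟨h1, h2, (e.symm i).2, ?_⟩
  have h4 : (e.symm i).1 = c := by
    apply Fin.ext
    rw [hdiv, hi]
  rw [← h4]
  exact h3

theorem clusterM (hLD : ∀ t : ℝ, t < 1 / 2 → LD t) (hPNT : PNT) (N : ℕ) (hN : 1 ≤ N) (η : ℝ)
    (hη : 0 < η) : ClusterM N η := by
  rcases le_or_gt η 1 with h1 | h1
  · exact N5_small hLD hPNT N hN η hη h1
  · obtain ⟨m, D₀, hm, h⟩ := N5_small hLD hPNT N hN 1 one_pos le_rfl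
    refine ⟨m, D₀, hm, fun W A₀ C hW hDW => ?_⟩
    obtain ⟨X₀, hX⟩ := h W A₀ C hW hDW
    refine ⟨X₀, fun x v a b hx ha haW hb hcop hdif => ?_⟩
    obtain ⟨w, hw0, hw1, hw2⟩ := hX x v a b hx ha haW hb hcop hdif
    exact ⟨w, hw0, hw1, fun c => le_trans (by linarith) (hw2 c)⟩

end PoolCL
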