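import Pool.Agent.Work.MP_70e905_nt.CL.Patt
import Pool.Agent.Work.MP_70e905_nt.CL.BlowR

/-!
# Module CL.UnivR : the uniform theorem on `r`-subsets of admissible sets

`N, L, D₁` from `patt` with `ε/2`, `X₀` from it with `W = primorial D₁`, `A₀ = C = 1`; `n₀` from `blowr` with
`m = L`, `γ = (1/4)^(r-1) - ε/2` and `ε/2`. Let `e : Fin n ≃ H` (`n = #H`, e.g. `H.orderEmbOfFin`), and `G` the
set of the injective `s : Fin r → Fin n` for which some `z ∈ (x, 2x]` has all `z + e (s i)` prime. The
hypothesis of `blowr` for `A`: apply `patt` with `a = 1`, `b (c, l) = e (A c l)`, `v` from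
`PoolQ4.exists_coprime_shift`. So `(γ - ε/2) n ^ r ≤ #G`. Every `s ∈ G` has its image in the family on the right
hand side, and a set `S` with `#S = r` is the image of at most `r !` of them: `#G ≤ r ! * #family`; and
`n.choose r * r ! ≤ n ^ r` (`Nat.choose_mul_factorial_le_pow` or `Nat.factorial_mul_choose..`,
`Nat.choose_le_pow_div`). If `(1/4)^(r-1) - ε < 0` the claim is trivial.
-/

namespace PoolCL

open Finset Classical PoolQ4

private theorem UnivR_primorial_pos (D : ℕ) : 0 < primorial D := by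
  unfold primorial
  exact Finset.prod_pos fun p hp => (mem_filter.1 hp).2.pos


theorem univ_r (HC : ∀ (N : ℕ) (η : ℝ), 1 ≤ N → 0 < η → ClusterM N η) (r : ℕ) (hr : 1 ≤ r) (ε : ℝ)
    (hε : 0 < ε) : ∃ n₀ x₀ : ℕ, ∀ x : ℕ, x₀ ≤ x → ∀ H : Finset ℕ, Admissible H →
      (∀ h ∈ H, h ≤ x) → n₀ ≤ #H →
      ((1 / 4) ^ (r - 1) - ε) * ((#H).choose r : ℝ) ≤
        (#{S ∈ H.powersetCard r | ∃ z, x < z ∧ z ≤ 2 * x ∧ ∀ h ∈ S, (z + h).Prime} : ℝ) := by
  obtain ⟨N, L, D₁, hN, hL, hpat⟩ := patt HC r hr (ε / 2) (half_pos hε)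
  obtain ⟨X₀, hX₀⟩ := hpat (primorial D₁) 1 1 (UnivR_primorial_pos _) dvd_rfl
  obtain ⟨n₀, hn₀⟩ := blowr r N L hN hL ((1 / 4) ^ (r - 1) - ε / 2) (ε / 2) (by
    have : (1 / 4 : ℝ) ^ (r - 1) ≤ 1 := pow_le_one₀ (by norm_num) (by norm_num)
    linarith) (half_pos hε)
  refine ⟨n₀, X₀, fun x hx H hH hHx hn => ?_⟩
  set n : ℕ := #H with hndef
  set e : Fin n ↪o ℕ := H.orderEmbOfFin rfl with he
  have heH : ∀ i, e i ∈ H := fun i => H.orderEmbOfFin_mem rfl i
  set G : Finset (Fin r → Fin n) := univ.filter (fun s => Function.Injective s ∧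
    ∃ z, x < z ∧ z ≤ 2 * x ∧ ∀ i, (z + e (s i)).Prime) with hG
  have h1 : ((1 / 4) ^ (r - 1) - ε / 2 - ε / 2) * (n : ℝ) ^ r ≤ (#G : ℝ) := by
    refine hn₀ n hn G (fun A hA => ?_)
    obtain ⟨v, hv⟩ := exists_coprime_shift hH D₁
    have h2 := hX₀ x v (fun _ => 1) (fun i => e (A i.1 i.2)) hx
      (fun _ => ⟨le_rfl, le_rfl⟩)
      (fun _ p hp hd => absurd (Nat.dvd_one.1 hd) hp.one_lt.ne')
      (fun i => by simpa using hHx _ (heH _))
      (fun i => by simpa using hv _ (heH _))
      (fun i j hij hEq => by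
        have h1 : e (A j.1 j.2) = e (A i.1 i.2) := by simpa using hEq
        exact hij (hA (e.injective h1)).symm)
    refine h2.trans ?_
    have h3 : #{t : Fin r → Fin N | Function.Injective t ∧ ∃ z, x < z ∧ z ≤ 2 * x ∧
        z ≡ v [MOD primorial D₁] ∧ ∀ i, ∃ l : Fin L, (1 * z + e (A (t i) l)).Prime} ≤
        #{t : Fin r → Fin N | Function.Injective t ∧
          ∃ l : Fin r → Fin L, (fun i => A (t i) (l i)) ∈ G} := by
      refine card_le_card (fun t ht => ?_)
      obtain ⟨ht1, z, hz1, hz2, _, hz3⟩ := (mem_filter.1 ht).2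
      choose l hl using hz3
      refine mem_filter.2 ⟨mem_univ _, ht1, l, mem_filter.2 ⟨mem_univ _, ?_, z, hz1, hz2, ?_⟩⟩
      · intro i j hij
        have h4 := @hA (t i, l i) (t j, l j) hij
        exact ht1 (congrArg Prod.fst h4)
      · intro i
        simpa using hl i
    exact_mod_cast h3
  -- from tuples to sets
  set F : Finset (Finset ℕ) := {S ∈ H.powersetCard r | ∃ z, x < z ∧ z ≤ 2 * x ∧
    ∀ h ∈ S, (z + h).Prime} with hF
  have h2 : #G ≤ r.factorial * #F := by
    refine card_le_mul_card_image_of_maps_to (f := fun s : Fin r → Fin n =>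
      (univ : Finset (Fin r)).image (fun i => e (s i))) ?_ _ ?_
    · intro s hs
      obtain ⟨hs1, z, hz1, hz2, hz3⟩ := (mem_filter.1 hs).2
      refine mem_filter.2 ⟨mem_powersetCard.2 ⟨?_, ?_⟩, z, hz1, hz2, ?_⟩
      · intro y hy
        obtain ⟨i, _, rfl⟩ := mem_image.1 hy
        exact heH _
      · have hc := card_image_of_injective (univ : Finset (Fin r)) (e.injective.comp hs1)
        rw [card_univ, Fintype.card_fin] at hc
        exact hc
      · intro h hh
        obtain ⟨i, _, rfl⟩ := mem_image.1 hh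
        exact hz3 i
    · intro S _
      rcases (G.filter (fun s => (univ : Finset (Fin r)).image (fun i => e (s i)) = S)).eq_empty_or_nonempty
        with h0 | ⟨s₀, hs₀⟩
      · rw [h0]
        simp
      · obtain ⟨hs1, hs2⟩ := mem_filter.1 hs₀
        have h3 : (G.filter (fun s => (univ : Finset (Fin r)).image (fun i => e (s i)) = S)) ⊆
            (univ : Finset (Equiv.Perm (Fin r))).image (fun σ => fun i => s₀ (σ i)) := by
          intro s hs
          obtain ⟨hs3, hs4⟩ := mem_filter.1 hs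
          have hsi := (mem_filter.1 hs3).2.1
          have h4 : ∀ i, ∃ j, s₀ j = s i := by
            intro i
            have h5 : e (s i) ∈ S := by
              rw [← hs4]
              exact mem_image_of_mem _ (mem_univ i)
            rw [← hs2] at h5
            obtain ⟨j, _, hj⟩ := mem_image.1 h5
            exact ⟨j, e.injective hj⟩
          choose σ hσ using h4
          have hσi : Function.Injective σ := by
            intro i j hij
            apply hsi
            rw [← hσ i, ← hσ j, hij]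
          refine mem_image.2 ⟨Equiv.ofBijective σ (Finite.injective_iff_bijective.1 hσi),
            mem_univ _, ?_⟩
          funext i
          simpa using hσ i
        refine (card_le_card h3).trans (card_image_le.trans ?_)
        rw [card_univ, Fintype.card_perm, Fintype.card_fin]
  rcases lt_or_ge ((1 / 4 : ℝ) ^ (r - 1) - ε) 0 with hneg | hpos
  · exact (mul_nonpos_of_nonpos_of_nonneg hneg.le (Nat.cast_nonneg _)).trans (Nat.cast_nonneg _)
  · have h3 : ((r.factorial : ℕ) : ℝ) * (n.choose r : ℝ) ≤ (n : ℝ) ^ r := by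
      have := Nat.descFactorial_le_pow n r
      rw [Nat.descFactorial_eq_factorial_mul_choose] at this
      exact_mod_cast this
    have h4 : (#G : ℝ) ≤ (r.factorial : ℝ) * (#F : ℝ) := by exact_mod_cast h2
    have h5 : (0 : ℝ) < (r.factorial : ℝ) := by exact_mod_cast Nat.factorial_pos r
    have h6 : (r.factorial : ℝ) * (((1 / 4) ^ (r - 1) - ε) * (n.choose r : ℝ)) ≤
        (r.factorial : ℝ) * (#F : ℝ) := by
      calc (r.factorial : ℝ) * (((1 / 4) ^ (r - 1) - ε) * (n.choose r : ℝ))
          = ((1 / 4) ^ (r - 1) - ε) * ((r.factorial : ℝ) * (n.choose r : ℝ)) := by ring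
        _ ≤ ((1 / 4) ^ (r - 1) - ε) * (n : ℝ) ^ r := mul_le_mul_of_nonneg_left h3 hpos
        _ = ((1 / 4) ^ (r - 1) - ε / 2 - ε / 2) * (n : ℝ) ^ r := by ring
        _ ≤ _ := h1.trans h4
    exact le_of_mul_le_mul_left h6 h5

end PoolCL
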